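import Pool.Agent.Helper32_ABCT.Stmts2

set_option autoImplicit false

open MvPolynomial

namespace ABCT.H14

open FlatCell

/-! ### finsupp manipulations -/

section
variable {S S' T T' : Net} {q i : ℕ}

theorem mapE_inl (e : S'.G ≃ S.G) (m : S'.flat.V →₀ ℤ) (j : ℕ) :
    (m.mapDomain (Sum.map id e) : S.flat.V →₀ ℤ) (Sum.inl j) = m (Sum.inl j) := by
  have hinj : Function.Injective (Sum.map (id : ℕ → ℕ) e) :=
    Function.Injective.sumMap Function.injective_id e.injective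
  exact Finsupp.mapDomain_apply hinj m (Sum.inl j)

theorem mapE_symm (e : S'.G ≃ S.G) (a : S.flat.V →₀ ℤ) :
    ((a.mapDomain (Sum.map id e.symm) : S'.flat.V →₀ ℤ).mapDomain (Sum.map id e) :
      S.flat.V →₀ ℤ) = a := by
  rw [← Finsupp.mapDomain_comp]
  have : (Sum.map (id : ℕ → ℕ) e) ∘ (Sum.map id e.symm) = id := by
    funext v
    rcases v with v | v
    · rfl
    · simp
  rw [this, Finsupp.mapDomain_id]

theorem mapE_inj (e : S'.G ≃ S.G) {a b : S'.flat.V →₀ ℤ}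
    (h : (a.mapDomain (Sum.map id e) : S.flat.V →₀ ℤ) = b.mapDomain (Sum.map id e)) : a = b := by
  have hinj : Function.Injective (Sum.map (id : ℕ → ℕ) e) :=
    Function.Injective.sumMap Function.injective_id e.injective
  exact Finsupp.mapDomain_injective hinj h

theorem vtL_inl (S T : Net) (q : ℕ) (a : S.flat.V →₀ ℤ) (j : ℕ) :
    (a.mapDomain (vtL S T q)) (Sum.inl j) = a (Sum.inl j) :=
  Finsupp.mapDomain_apply (vtL S T q).injective a (Sum.inl j)

theorem vtR_inl (S T : Net) (q : ℕ) (a : T.flat.V →₀ ℤ) (j : ℕ) :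
    (a.mapDomain (vtR S T q)) (Sum.inl j) = a (Sum.inl j) :=
  Finsupp.mapDomain_apply (vtR S T q).injective a (Sum.inl j)

theorem vdL_inl (S T : Net) (a : S.flat.V →₀ ℤ) (j : ℕ) :
    (a.mapDomain (vdL S T)) (Sum.inl j) = a (Sum.inl j) :=
  Finsupp.mapDomain_apply (vdL S T).injective a (Sum.inl j)

theorem vdR_inl (S T : Net) (a : T.flat.V →₀ ℤ) (j : ℕ) :
    (a.mapDomain (vdR S T)) (Sum.inl j) = a (Sum.inl j) :=
  Finsupp.mapDomain_apply (vdR S T).injective a (Sum.inl j)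

theorem vtL_comp (q : ℕ) (eS : S'.G ≃ S.G) (eT : T'.G ≃ T.G) (a : S'.flat.V →₀ ℤ) :
    ((a.mapDomain (vtL S' T' q)).mapDomain (Sum.map id (Equiv.sumCongr eS eT)) :
      (Net.tsum S T q).flat.V →₀ ℤ) =
      (a.mapDomain (Sum.map id eS) : S.flat.V →₀ ℤ).mapDomain (vtL S T q) := by
  rw [← Finsupp.mapDomain_comp, ← Finsupp.mapDomain_comp]
  congr 1
  funext v
  rcases v with v | v <;> rfl

theorem vtR_comp (q : ℕ) (eS : S'.G ≃ S.G) (eT : T'.G ≃ T.G) (a : T'.flat.V →₀ ℤ) :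
    ((a.mapDomain (vtR S' T' q)).mapDomain (Sum.map id (Equiv.sumCongr eS eT)) :
      (Net.tsum S T q).flat.V →₀ ℤ) =
      (a.mapDomain (Sum.map id eT) : T.flat.V →₀ ℤ).mapDomain (vtR S T q) := by
  rw [← Finsupp.mapDomain_comp, ← Finsupp.mapDomain_comp]
  congr 1
  funext v
  rcases v with v | v <;> rfl

theorem vdL_comp (eS : S'.G ≃ S.G) (eT : T'.G ≃ T.G) (a : S'.flat.V →₀ ℤ) :
    ((a.mapDomain (vdL S' T')).mapDomain (Sum.map id (Equiv.sumCongr eS eT)) :
      (Net.dsum S T).flat.V →₀ ℤ) =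
      (a.mapDomain (Sum.map id eS) : S.flat.V →₀ ℤ).mapDomain (vdL S T) := by
  rw [← Finsupp.mapDomain_comp, ← Finsupp.mapDomain_comp]
  congr 1
  funext v
  rcases v with v | v <;> rfl

theorem vdR_comp (eS : S'.G ≃ S.G) (eT : T'.G ≃ T.G) (a : T'.flat.V →₀ ℤ) :
    ((a.mapDomain (vdR S' T')).mapDomain (Sum.map id (Equiv.sumCongr eS eT)) :
      (Net.dsum S T).flat.V →₀ ℤ) =
      (a.mapDomain (Sum.map id eT) : T.flat.V →₀ ℤ).mapDomain (vdR S T) := by
  rw [← Finsupp.mapDomain_comp, ← Finsupp.mapDomain_comp]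
  congr 1
  funext v
  rcases v with v | v <;> rfl

/-- lattices of 2-sums -/
theorem lam_tsum (hL : LtsStmt) (hV : (Net.tsum S T q).Valid) (hV' : (Net.tsum S' T' q).Valid)
    (eS : S'.G ≃ S.G) (eT : T'.G ≃ T.G) (pS pT : (ℕ → ℤ) → Prop)
    (hS : ∀ a : S'.flat.V →₀ ℤ, a ∈ S'.flat.Lam ↔
      (a.mapDomain (Sum.map id eS) : S.flat.V →₀ ℤ) ∈ S.flat.Lam ∧ pS fun j => a (Sum.inl j))
    (hT : ∀ a : T'.flat.V →₀ ℤ, a ∈ T'.flat.Lam ↔
      (a.mapDomain (Sum.map id eT) : T.flat.V →₀ ℤ) ∈ T.flat.Lam ∧ pT fun j => a (Sum.inl j))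
    (hc : ∀ a ∈ S.flat.Lam, ∀ b ∈ T.flat.Lam, a (Sum.inl q) + b (Sum.inl q) = 0 →
      ((pS (fun j => a (Sum.inl j)) ∧ pT fun j => b (Sum.inl j)) ↔
        a (Sum.inl i) + b (Sum.inl i) = 0)) (m : (Net.tsum S' T' q).flat.V →₀ ℤ) :
    m ∈ (Net.tsum S' T' q).flat.Lam ↔
      (m.mapDomain (Sum.map id (Equiv.sumCongr eS eT)) : (Net.tsum S T q).flat.V →₀ ℤ) ∈
        (Net.tsum S T q).flat.Lam ∧
      (m.mapDomain (Sum.map id (Equiv.sumCongr eS eT)) : (Net.tsum S T q).flat.V →₀ ℤ)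
        (Sum.inl i) = 0 := by
  rw [hL S' T' q hV', hL S T q hV]
  constructor
  · rintro ⟨a, ha, b, hb, hab, rfl⟩
    have ha' := (hS a).1 ha
    have hb' := (hT b).1 hb
    have hab' : (a.mapDomain (Sum.map id eS) : S.flat.V →₀ ℤ) (Sum.inl q) +
        (b.mapDomain (Sum.map id eT) : T.flat.V →₀ ℤ) (Sum.inl q) = 0 := by
      rw [mapE_inl, mapE_inl]; exact hab
    have e1 := Finsupp.mapDomain_add (f := Sum.map (id : ℕ → ℕ) (Equiv.sumCongr eS eT))
      (v₁ := a.mapDomain (vtL S' T' q)) (v₂ := b.mapDomain (vtR S' T' q))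
    rw [e1, vtL_comp, vtR_comp]
    refine ⟨⟨_, ha'.1, _, hb'.1, hab', rfl⟩, ?_⟩
    rw [Finsupp.add_apply, vtL_inl, vtR_inl]
    refine (hc _ ha'.1 _ hb'.1 hab').1 ⟨?_, ?_⟩
    · have e2 : (fun j => (a.mapDomain (Sum.map id eS) : S.flat.V →₀ ℤ) (Sum.inl j)) =
          fun j => a (Sum.inl j) := funext fun j => mapE_inl eS a j
      rw [e2]; exact ha'.2
    · have e2 : (fun j => (b.mapDomain (Sum.map id eT) : T.flat.V →₀ ℤ) (Sum.inl j)) =
          fun j => b (Sum.inl j) := funext fun j => mapE_inl eT b j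
      rw [e2]; exact hb'.2
  · rintro ⟨⟨a, ha, b, hb, hab, hm⟩, hi⟩
    rw [hm, Finsupp.add_apply, vtL_inl, vtR_inl] at hi
    obtain ⟨h1, h2⟩ := (hc a ha b hb hab).2 hi
    refine ⟨a.mapDomain (Sum.map id eS.symm), ?_, b.mapDomain (Sum.map id eT.symm), ?_, ?_, ?_⟩
    · rw [hS, mapE_symm]
      refine ⟨ha, ?_⟩
      have : (fun j => (a.mapDomain (Sum.map id eS.symm) : S'.flat.V →₀ ℤ) (Sum.inl j)) =
          fun j => a (Sum.inl j) := funext fun j => mapE_inl eS.symm a j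
      rw [this]; exact h1
    · rw [hT, mapE_symm]
      refine ⟨hb, ?_⟩
      have : (fun j => (b.mapDomain (Sum.map id eT.symm) : T'.flat.V →₀ ℤ) (Sum.inl j)) =
          fun j => b (Sum.inl j) := funext fun j => mapE_inl eT.symm b j
      rw [this]; exact h2
    · rw [mapE_inl eS.symm a q, mapE_inl eT.symm b q]; exact hab
    · have hinj : Function.Injective (Sum.map (id : ℕ → ℕ) (Equiv.sumCongr eS eT)) :=
        Function.Injective.sumMap Function.injective_id (Equiv.injective _)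
      apply Finsupp.mapDomain_injective hinj
      have e1 := Finsupp.mapDomain_add (f := Sum.map (id : ℕ → ℕ) (Equiv.sumCongr eS eT))
        (v₁ := (a.mapDomain (Sum.map id eS.symm) : S'.flat.V →₀ ℤ).mapDomain (vtL S' T' q))
        (v₂ := (b.mapDomain (Sum.map id eT.symm) : T'.flat.V →₀ ℤ).mapDomain (vtR S' T' q))
      rw [e1, vtL_comp, vtR_comp, mapE_symm, mapE_symm]
      exact hm

/-- lattices of direct sums -/
theorem lam_dsum (hL : LdsStmt) (hV : (Net.dsum S T).Valid) (hV' : (Net.dsum S' T').Valid)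
    (eS : S'.G ≃ S.G) (eT : T'.G ≃ T.G) (pS pT : (ℕ → ℤ) → Prop)
    (hS : ∀ a : S'.flat.V →₀ ℤ, a ∈ S'.flat.Lam ↔
      (a.mapDomain (Sum.map id eS) : S.flat.V →₀ ℤ) ∈ S.flat.Lam ∧ pS fun j => a (Sum.inl j))
    (hT : ∀ a : T'.flat.V →₀ ℤ, a ∈ T'.flat.Lam ↔
      (a.mapDomain (Sum.map id eT) : T.flat.V →₀ ℤ) ∈ T.flat.Lam ∧ pT fun j => a (Sum.inl j))
    (hc : ∀ a ∈ S.flat.Lam, ∀ b ∈ T.flat.Lam,
      ((pS (fun j => a (Sum.inl j)) ∧ pT fun j => b (Sum.inl j)) ↔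
        a (Sum.inl i) + b (Sum.inl i) = 0)) (m : (Net.dsum S' T').flat.V →₀ ℤ) :
    m ∈ (Net.dsum S' T').flat.Lam ↔
      (m.mapDomain (Sum.map id (Equiv.sumCongr eS eT)) : (Net.dsum S T).flat.V →₀ ℤ) ∈
        (Net.dsum S T).flat.Lam ∧
      (m.mapDomain (Sum.map id (Equiv.sumCongr eS eT)) : (Net.dsum S T).flat.V →₀ ℤ)
        (Sum.inl i) = 0 := by
  rw [hL S' T' hV', hL S T hV]
  constructor
  · rintro ⟨a, ha, b, hb, rfl⟩
    have ha' := (hS a).1 ha
    have hb' := (hT b).1 hb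
    have e1 := Finsupp.mapDomain_add (f := Sum.map (id : ℕ → ℕ) (Equiv.sumCongr eS eT))
      (v₁ := a.mapDomain (vdL S' T')) (v₂ := b.mapDomain (vdR S' T'))
    rw [e1, vdL_comp, vdR_comp]
    refine ⟨⟨_, ha'.1, _, hb'.1, rfl⟩, ?_⟩
    rw [Finsupp.add_apply, vdL_inl, vdR_inl]
    refine (hc _ ha'.1 _ hb'.1).1 ⟨?_, ?_⟩
    · have e2 : (fun j => (a.mapDomain (Sum.map id eS) : S.flat.V →₀ ℤ) (Sum.inl j)) =
          fun j => a (Sum.inl j) := funext fun j => mapE_inl eS a j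
      rw [e2]; exact ha'.2
    · have e2 : (fun j => (b.mapDomain (Sum.map id eT) : T.flat.V →₀ ℤ) (Sum.inl j)) =
          fun j => b (Sum.inl j) := funext fun j => mapE_inl eT b j
      rw [e2]; exact hb'.2
  · rintro ⟨⟨a, ha, b, hb, hm⟩, hi⟩
    rw [hm, Finsupp.add_apply, vdL_inl, vdR_inl] at hi
    obtain ⟨h1, h2⟩ := (hc a ha b hb).2 hi
    refine ⟨a.mapDomain (Sum.map id eS.symm), ?_, b.mapDomain (Sum.map id eT.symm), ?_, ?_⟩
    · rw [hS, mapE_symm]
      refine ⟨ha, ?_⟩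
      have : (fun j => (a.mapDomain (Sum.map id eS.symm) : S'.flat.V →₀ ℤ) (Sum.inl j)) =
          fun j => a (Sum.inl j) := funext fun j => mapE_inl eS.symm a j
      rw [this]; exact h1
    · rw [hT, mapE_symm]
      refine ⟨hb, ?_⟩
      have : (fun j => (b.mapDomain (Sum.map id eT.symm) : T'.flat.V →₀ ℤ) (Sum.inl j)) =
          fun j => b (Sum.inl j) := funext fun j => mapE_inl eT.symm b j
      rw [this]; exact h2
    · have hinj : Function.Injective (Sum.map (id : ℕ → ℕ) (Equiv.sumCongr eS eT)) :=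
        Function.Injective.sumMap Function.injective_id (Equiv.injective _)
      apply Finsupp.mapDomain_injective hinj
      have e1 := Finsupp.mapDomain_add (f := Sum.map (id : ℕ → ℕ) (Equiv.sumCongr eS eT))
        (v₁ := (a.mapDomain (Sum.map id eS.symm) : S'.flat.V →₀ ℤ).mapDomain (vdL S' T'))
        (v₂ := (b.mapDomain (Sum.map id eT.symm) : T'.flat.V →₀ ℤ).mapDomain (vdR S' T'))
      rw [e1, vdL_comp, vdR_comp, mapE_symm, mapE_symm]
      exact hm

/-! ### bases -/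

theorem M_tsum (pS pT P : Finset ℕ → Prop) [DecidablePred pS] [DecidablePred pT]
    [DecidablePred P] (hS : S'.M = S.M.filter pS) (hT : T'.M = T.M.filter pT)
    (hc : ∀ J ∈ S.M, ∀ K ∈ T.M, Xq q J K → ((pS J ∧ pT K) ↔ P ((J ∪ K).erase q))) :
    (Net.tsum S' T' q).M = (Net.tsum S T q).M.filter P := by
  ext I
  rw [Finset.mem_filter, tsum_M, tsum_M]
  constructor
  · rintro ⟨J, hJ, K, hK, hX, rfl⟩
    rw [hS, Finset.mem_filter] at hJ
    rw [hT, Finset.mem_filter] at hK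
    exact ⟨⟨J, hJ.1, K, hK.1, hX, rfl⟩, (hc J hJ.1 K hK.1 hX).1 ⟨hJ.2, hK.2⟩⟩
  · rintro ⟨⟨J, hJ, K, hK, hX, rfl⟩, hP⟩
    obtain ⟨h1, h2⟩ := (hc J hJ K hK hX).2 hP
    exact ⟨J, by rw [hS, Finset.mem_filter]; exact ⟨hJ, h1⟩, K,
      by rw [hT, Finset.mem_filter]; exact ⟨hK, h2⟩, hX, rfl⟩

theorem M_dsum (pS pT P : Finset ℕ → Prop) [DecidablePred pS] [DecidablePred pT]
    [DecidablePred P] (hS : S'.M = S.M.filter pS) (hT : T'.M = T.M.filter pT)
    (hc : ∀ J ∈ S.M, ∀ K ∈ T.M, ((pS J ∧ pT K) ↔ P (J ∪ K))) :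
    (Net.dsum S' T').M = (Net.dsum S T).M.filter P := by
  ext I
  rw [Finset.mem_filter, dsum_M, dsum_M]
  constructor
  · rintro ⟨J, hJ, K, hK, rfl⟩
    rw [hS, Finset.mem_filter] at hJ
    rw [hT, Finset.mem_filter] at hK
    exact ⟨⟨J, hJ.1, K, hK.1, rfl⟩, (hc J hJ.1 K hK.1).1 ⟨hJ.2, hK.2⟩⟩
  · rintro ⟨⟨J, hJ, K, hK, rfl⟩, hP⟩
    obtain ⟨h1, h2⟩ := (hc J hJ K hK).2 hP
    exact ⟨J, by rw [hS, Finset.mem_filter]; exact ⟨hJ, h1⟩, K,
      by rw [hT, Finset.mem_filter]; exact ⟨hK, h2⟩, rfl⟩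

/-! ### polynomials -/

theorem tsum_Delta (hV : (Net.tsum S T q).Valid) (J K : Finset ℕ) (hJ : J ∈ S.M) (hK : K ∈ T.M)
    (hX : Xq q J K) : (Net.tsum S T q).Δ ((J ∪ K).erase q) =
      rename Sum.inl (S.Δ J) * rename Sum.inr (T.Δ K) := by
  obtain ⟨h1, h2, r1, r2, q1, q2, h3, h8⟩ := hV
  have wS := Net.wf' S h1
  have wT := Net.wf' T h2
  obtain ⟨e1, e2⟩ := tsum_split (q := q) (wS.sub J hJ) (wT.sub K hK) h3
  have e3 : (J ∪ K).erase q ⊆ S.E.erase q ∪ T.E.erase q := by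
    rw [← Finset.erase_union_distrib]
    exact Finset.erase_subset_erase _ (Finset.union_subset_union (wS.sub J hJ) (wT.sub K hK))
  rcases hX with ⟨hqJ, hqK⟩ | ⟨hqJ, hqK⟩
  · have e0 : S.Δ (J.erase q) = 0 := by
      by_contra h
      have := wS.card _ ((wS.ne _).mp h)
      rw [Finset.card_erase_of_mem hqJ, wS.card J hJ] at this
      omega
    rw [Net.Δ, if_pos e3, e1, e2, e0, map_zero, zero_mul, zero_add, Finset.insert_erase hqJ,
      Finset.erase_eq_of_notMem hqK]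
  · have e0 : T.Δ (K.erase q) = 0 := by
      by_contra h
      have := wT.card _ ((wT.ne _).mp h)
      rw [Finset.card_erase_of_mem hqK, wT.card K hK] at this
      omega
    rw [Net.Δ, if_pos e3, e1, e2, e0, map_zero, mul_zero, add_zero, Finset.insert_erase hqK,
      Finset.erase_eq_of_notMem hqJ]

theorem dsum_Delta (hV : (Net.dsum S T).Valid) (J K : Finset ℕ) (hJ : J ∈ S.M) (hK : K ∈ T.M) :
    (Net.dsum S T).Δ (J ∪ K) = rename Sum.inl (S.Δ J) * rename Sum.inr (T.Δ K) := by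
  obtain ⟨h1, h2, h3⟩ := hV
  have wS := Net.wf' S h1
  have wT := Net.wf' T h2
  have hd := h3
  rw [Finset.disjoint_left] at hd
  have e1 : (J ∪ K) ∩ S.E = J := by
    ext x
    simp only [Finset.mem_inter, Finset.mem_union]
    constructor
    · rintro ⟨h1 | h1, h2⟩
      · exact h1
      · exact absurd (wT.sub K hK h1) (hd h2)
    · intro h; exact ⟨Or.inl h, wS.sub J hJ h⟩
  have e2 : (J ∪ K) ∩ T.E = K := by
    ext x
    simp only [Finset.mem_inter, Finset.mem_union]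
    constructor
    · rintro ⟨h1 | h1, h2⟩
      · exact absurd h2 (hd (wS.sub J hJ h1))
      · exact h1
    · intro h; exact ⟨Or.inr h, wT.sub K hK h⟩
  have e3 : J ∪ K ⊆ S.E ∪ T.E := Finset.union_subset_union (wS.sub J hJ) (wT.sub K hK)
  rw [Net.Δ, if_pos e3, e1, e2]

theorem Delta_tsum (hV : (Net.tsum S T q).Valid) (hV' : (Net.tsum S' T' q).Valid)
    (eS : S'.G ≃ S.G) (eT : T'.G ≃ T.G) (hSM : S'.M ⊆ S.M) (hTM : T'.M ⊆ T.M)
    (hS : ∀ I ∈ S'.M, rename eS (S'.Δ I) = S.Δ I) (hT : ∀ I ∈ T'.M, rename eT (T'.Δ I) = T.Δ I) :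
    ∀ I ∈ (Net.tsum S' T' q).M, rename (Equiv.sumCongr eS eT) ((Net.tsum S' T' q).Δ I) =
      (Net.tsum S T q).Δ I := by
  intro I hI
  obtain ⟨J, hJ, K, hK, hX, rfl⟩ := tsum_M I |>.1 hI
  rw [tsum_Delta hV' J K hJ hK hX, tsum_Delta hV J K (hSM hJ) (hTM hK) hX, map_mul, rename_rename,
    rename_rename, ← hS J hJ, ← hT K hK, rename_rename, rename_rename]
  rfl

theorem Delta_dsum (hV : (Net.dsum S T).Valid) (hV' : (Net.dsum S' T').Valid)
    (eS : S'.G ≃ S.G) (eT : T'.G ≃ T.G) (hSM : S'.M ⊆ S.M) (hTM : T'.M ⊆ T.M)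
    (hS : ∀ I ∈ S'.M, rename eS (S'.Δ I) = S.Δ I) (hT : ∀ I ∈ T'.M, rename eT (T'.Δ I) = T.Δ I) :
    ∀ I ∈ (Net.dsum S' T').M, rename (Equiv.sumCongr eS eT) ((Net.dsum S' T').Δ I) =
      (Net.dsum S T).Δ I := by
  intro I hI
  obtain ⟨J, hJ, K, hK, rfl⟩ := dsum_M I |>.1 hI
  rw [dsum_Delta hV' J K hJ hK, dsum_Delta hV J K (hSM hJ) (hTM hK), map_mul, rename_rename,
    rename_rename, ← hS J hJ, ← hT K hK, rename_rename, rename_rename]
  rfl

/-! ### alive labels -/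

theorem mem_iff_left {J K : Finset ℕ} (hiq : i ≠ q) (hi : i ∉ K) :
    i ∈ (J ∪ K).erase q ↔ i ∈ J := by
  simp [hiq, hi]

theorem mem_iff_right {J K : Finset ℕ} (hiq : i ≠ q) (hi : i ∉ J) :
    i ∈ (J ∪ K).erase q ↔ i ∈ K := by
  simp [hiq, hi]

theorem alive_tsum_left (hT : T.Valid) (hiq : i ≠ q) (hi : i ∉ T.E)
    (hX : ∀ J ∈ S.M, ∃ K ∈ T.M, Xq q J K) (h : S.Alive i) : (Net.tsum S T q).Alive i := by
  obtain ⟨⟨J, hJ, h1⟩, ⟨J', hJ', h2⟩⟩ := h
  obtain ⟨K, hK, hX1⟩ := hX J hJ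
  obtain ⟨K', hK', hX2⟩ := hX J' hJ'
  have n1 : i ∉ K := fun h => hi ((Net.wf' T hT).sub K hK h)
  have n2 : i ∉ K' := fun h => hi ((Net.wf' T hT).sub K' hK' h)
  exact ⟨⟨_, (tsum_M _).2 ⟨J, hJ, K, hK, hX1, rfl⟩, (mem_iff_left hiq n1).2 h1⟩,
    ⟨_, (tsum_M _).2 ⟨J', hJ', K', hK', hX2, rfl⟩, fun h => h2 ((mem_iff_left hiq n2).1 h)⟩⟩

theorem alive_tsum_right (hS : S.Valid) (hiq : i ≠ q) (hi : i ∉ S.E)
    (hX : ∀ K ∈ T.M, ∃ J ∈ S.M, Xq q J K) (h : T.Alive i) : (Net.tsum S T q).Alive i := by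
  obtain ⟨⟨J, hJ, h1⟩, ⟨J', hJ', h2⟩⟩ := h
  obtain ⟨K, hK, hX1⟩ := hX J hJ
  obtain ⟨K', hK', hX2⟩ := hX J' hJ'
  have n1 : i ∉ K := fun h => hi ((Net.wf' S hS).sub K hK h)
  have n2 : i ∉ K' := fun h => hi ((Net.wf' S hS).sub K' hK' h)
  exact ⟨⟨_, (tsum_M _).2 ⟨K, hK, J, hJ, hX1, rfl⟩, (mem_iff_right hiq n1).2 h1⟩,
    ⟨_, (tsum_M _).2 ⟨K', hK', J', hJ', hX2, rfl⟩, fun h => h2 ((mem_iff_right hiq n2).1 h)⟩⟩

theorem alive_of_tsum_left (hT : T.Valid) (hiq : i ≠ q) (hi : i ∉ T.E)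
    (h : (Net.tsum S T q).Alive i) : S.Alive i := by
  obtain ⟨⟨I, hI, h1⟩, ⟨I', hI', h2⟩⟩ := h
  obtain ⟨J, hJ, K, hK, hX, rfl⟩ := (tsum_M _).1 hI
  obtain ⟨J', hJ', K', hK', hX', rfl⟩ := (tsum_M _).1 hI'
  have n1 : i ∉ K := fun h => hi ((Net.wf' T hT).sub K hK h)
  have n2 : i ∉ K' := fun h => hi ((Net.wf' T hT).sub K' hK' h)
  exact ⟨⟨J, hJ, (mem_iff_left hiq n1).1 h1⟩, ⟨J', hJ', fun h => h2 ((mem_iff_left hiq n2).2 h)⟩⟩

theorem alive_of_tsum_right (hS : S.Valid) (hiq : i ≠ q) (hi : i ∉ S.E)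
    (h : (Net.tsum S T q).Alive i) : T.Alive i := by
  obtain ⟨⟨I, hI, h1⟩, ⟨I', hI', h2⟩⟩ := h
  obtain ⟨K, hK, J, hJ, hX, rfl⟩ := (tsum_M _).1 hI
  obtain ⟨K', hK', J', hJ', hX', rfl⟩ := (tsum_M _).1 hI'
  have n1 : i ∉ K := fun h => hi ((Net.wf' S hS).sub K hK h)
  have n2 : i ∉ K' := fun h => hi ((Net.wf' S hS).sub K' hK' h)
  exact ⟨⟨J, hJ, (mem_iff_right hiq n1).1 h1⟩,
    ⟨J', hJ', fun h => h2 ((mem_iff_right hiq n2).2 h)⟩⟩

theorem mem_iff_dleft {J K : Finset ℕ} (hi : i ∉ K) : i ∈ J ∪ K ↔ i ∈ J := by simp [hi]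
theorem mem_iff_dright {J K : Finset ℕ} (hi : i ∉ J) : i ∈ J ∪ K ↔ i ∈ K := by simp [hi]

theorem alive_dsum_left (hT : T.Valid) (hi : i ∉ T.E) :
    (Net.dsum S T).Alive i ↔ S.Alive i := by
  obtain ⟨K0, hK0⟩ := (Net.wf' T hT).nonempty
  have hn : ∀ K ∈ T.M, i ∉ K := fun K hK h => hi ((Net.wf' T hT).sub K hK h)
  constructor
  · rintro ⟨⟨I, hI, h1⟩, ⟨I', hI', h2⟩⟩
    obtain ⟨J, hJ, K, hK, rfl⟩ := (dsum_M _).1 hI
    obtain ⟨J', hJ', K', hK', rfl⟩ := (dsum_M _).1 hI'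
    exact ⟨⟨J, hJ, (mem_iff_dleft (hn K hK)).1 h1⟩,
      ⟨J', hJ', fun h => h2 ((mem_iff_dleft (hn K' hK')).2 h)⟩⟩
  · rintro ⟨⟨J, hJ, h1⟩, ⟨J', hJ', h2⟩⟩
    exact ⟨⟨_, (dsum_M _).2 ⟨J, hJ, K0, hK0, rfl⟩, (mem_iff_dleft (hn K0 hK0)).2 h1⟩,
      ⟨_, (dsum_M _).2 ⟨J', hJ', K0, hK0, rfl⟩, fun h => h2 ((mem_iff_dleft (hn K0 hK0)).1 h)⟩⟩

theorem alive_dsum_right (hS : S.Valid) (hi : i ∉ S.E) :
    (Net.dsum S T).Alive i ↔ T.Alive i := by
  obtain ⟨K0, hK0⟩ := (Net.wf' S hS).nonempty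
  have hn : ∀ K ∈ S.M, i ∉ K := fun K hK h => hi ((Net.wf' S hS).sub K hK h)
  constructor
  · rintro ⟨⟨I, hI, h1⟩, ⟨I', hI', h2⟩⟩
    obtain ⟨K, hK, J, hJ, rfl⟩ := (dsum_M _).1 hI
    obtain ⟨K', hK', J', hJ', rfl⟩ := (dsum_M _).1 hI'
    exact ⟨⟨J, hJ, (mem_iff_dright (hn K hK)).1 h1⟩,
      ⟨J', hJ', fun h => h2 ((mem_iff_dright (hn K' hK')).2 h)⟩⟩
  · rintro ⟨⟨J, hJ, h1⟩, ⟨J', hJ', h2⟩⟩
    exact ⟨⟨_, (dsum_M _).2 ⟨K0, hK0, J, hJ, rfl⟩, (mem_iff_dright (hn K0 hK0)).2 h1⟩,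
      ⟨_, (dsum_M _).2 ⟨K0, hK0, J', hJ', rfl⟩, fun h => h2 ((mem_iff_dright (hn K0 hK0)).1 h)⟩⟩

theorem alive_mem_E (hS : S.Valid) (h : S.Alive i) : i ∈ S.E := by
  obtain ⟨⟨I, hI, h1⟩, -⟩ := h
  exact (Net.wf' S hS).sub I hI h1

/-- completeness of the matching in a 2-sum -/
theorem match_left (hV : (Net.tsum S T q).Valid) : ∀ J ∈ S.M, ∃ K ∈ T.M, Xq q J K := by
  obtain ⟨h1, h2, r1, r2, q1, q2, h3, h8⟩ := hV
  obtain ⟨K0, hK0⟩ := (Net.wf' T h2).nonempty
  intro J hJ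
  rcases h8 with ⟨-, ⟨⟨K, hK, a⟩, ⟨K', hK', b⟩⟩⟩ | ⟨a, b⟩ | ⟨a, b⟩
  · by_cases h : q ∈ J
    · exact ⟨K', hK', Or.inl ⟨h, b⟩⟩
    · exact ⟨K, hK, Or.inr ⟨h, a⟩⟩
  · exact ⟨K0, hK0, Or.inr ⟨a J hJ, b K0 hK0⟩⟩
  · exact ⟨K0, hK0, Or.inl ⟨a J hJ, b K0 hK0⟩⟩

theorem match_right (hV : (Net.tsum S T q).Valid) : ∀ K ∈ T.M, ∃ J ∈ S.M, Xq q J K := by
  obtain ⟨h1, h2, r1, r2, q1, q2, h3, h8⟩ := hV
  obtain ⟨K0, hK0⟩ := (Net.wf' S h1).nonempty
  intro J hJ
  rcases h8 with ⟨⟨⟨K, hK, a⟩, ⟨K', hK', b⟩⟩, -⟩ | ⟨a, b⟩ | ⟨a, b⟩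
  · by_cases h : q ∈ J
    · exact ⟨K', hK', Or.inr ⟨b, h⟩⟩
    · exact ⟨K, hK, Or.inl ⟨a, h⟩⟩
  · exact ⟨K0, hK0, Or.inr ⟨a K0 hK0, b J hJ⟩⟩
  · exact ⟨K0, hK0, Or.inl ⟨a K0 hK0, b J hJ⟩⟩

end

/-- all labels of uniform nets are alive -/
theorem alive_uniform {S : Net} {l : List ℕ} {r i : ℕ} (hl : l.Nodup)
    (hM : S.M = l.toFinset.powersetCard r) (hr : 1 ≤ r) (hr' : r < l.length) (hi : i ∈ l) :
    S.Alive i := by
  have hc : l.toFinset.card = l.length := List.toFinset_card_of_nodup hl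
  have hi' : i ∈ l.toFinset := List.mem_toFinset.2 hi
  constructor
  · obtain ⟨J, hJ, hJc⟩ := Finset.exists_subset_card_eq (s := l.toFinset.erase i) (n := r - 1)
      (by rw [Finset.card_erase_of_mem hi', hc]; omega)
    refine ⟨insert i J, ?_, Finset.mem_insert_self _ _⟩
    rw [hM, Finset.mem_powersetCard]
    refine ⟨Finset.insert_subset hi' (hJ.trans (Finset.erase_subset _ _)), ?_⟩
    rw [Finset.card_insert_of_notMem (fun h => (Finset.mem_erase.1 (hJ h)).1 rfl), hJc]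
    omega
  · obtain ⟨J, hJ, hJc⟩ := Finset.exists_subset_card_eq (s := l.toFinset.erase i) (n := r)
      (by rw [Finset.card_erase_of_mem hi', hc]; omega)
    refine ⟨J, ?_, fun h => (Finset.mem_erase.1 (hJ h)).1 rfl⟩
    rw [hM, Finset.mem_powersetCard]
    exact ⟨hJ.trans (Finset.erase_subset _ _), hJc⟩

/-- a facet of `gen` kills no label -/
theorem gen_alive (hVt : VtxGStmt) (L A R : List ℕ) (ρ q d r : ℕ) (SA SB : Net)
    (hV : (Net.gen (L ++ A ++ R ++ [ρ]) (d + r)).Valid) (hq : q ∉ L ++ A ++ R ++ [ρ])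
    (hA : Net.IsVtx (A ++ [q]) (d + 1) SA) (hB : Net.IsVtx (L ++ [q] ++ R ++ [ρ]) r SB)
    (i : ℕ) (hi : i ∈ L ++ A ++ R ++ [ρ]) : (Net.tsum SA SB q).Alive i := by
  have hnd : (L ++ A ++ R ++ [ρ]).Nodup := hV.1
  have hndA : (A ++ [q]).Nodup := by
    simp only [List.nodup_append, List.mem_append, List.mem_singleton] at hnd hq ⊢
    simp only [List.nodup_singleton, List.mem_singleton] at *
    refine ⟨hnd.1.1.2.1, trivial, ?_⟩
    rintro a ha b rfl rfl
    exact hq (Or.inl (Or.inl (Or.inr ha)))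
  have hndB : (L ++ [q] ++ R ++ [ρ]).Nodup := by
    simp only [List.nodup_append, List.mem_append, List.mem_singleton] at hnd hq ⊢
    simp only [List.nodup_singleton, List.mem_singleton] at *
    push Not at hq
    obtain ⟨⟨⟨h1, h2, h3⟩, h4, h5⟩, -, h6⟩ := hnd
    refine ⟨⟨⟨h1, trivial, ?_⟩, h4, ?_⟩, trivial, ?_⟩
    · rintro a ha b rfl rfl
      exact hq.1.1.1 ha
    · rintro a (ha | rfl) b hb rfl
      · exact h5 a (Or.inl ha) a hb rfl
      · exact hq.1.2 hb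
    · rintro a ((ha | rfl) | ha) b rfl rfl
      · exact h6 a (Or.inl (Or.inl ha)) a rfl rfl
      · exact hq.2 rfl
      · exact h6 a (Or.inr ha) a rfl rfl
  obtain ⟨⟨gA, hgA⟩, vA, a1, a2, -, -⟩ := hVt _ _ _ hA hndA
  obtain ⟨⟨gB, hgB⟩, vB, b1, b2, -, -⟩ := hVt _ _ _ hB hndB
  have qA : SA.Alive q := alive_uniform hndA hgA.2.1 a1 a2 (by simp)
  have qB : SB.Alive q := alive_uniform hndB hgB.2.1 b1 b2 (by simp)
  have hiq : i ≠ q := fun h => hq (h ▸ hi)
  have hEA : SA.E = (A ++ [q]).toFinset := hgA.2.2.1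
  have hEB : SB.E = (L ++ [q] ++ R ++ [ρ]).toFinset := hgB.2.2.1
  have hXl : ∀ J ∈ SA.M, ∃ K ∈ SB.M, Xq q J K := by
    intro J _
    obtain ⟨⟨K, hK, a⟩, ⟨K', hK', b⟩⟩ := qB
    by_cases h : q ∈ J
    · exact ⟨K', hK', Or.inl ⟨h, b⟩⟩
    · exact ⟨K, hK, Or.inr ⟨h, a⟩⟩
  have hXr : ∀ K ∈ SB.M, ∃ J ∈ SA.M, Xq q J K := by
    intro J _
    obtain ⟨⟨K, hK, a⟩, ⟨K', hK', b⟩⟩ := qA
    by_cases h : q ∈ J
    · exact ⟨K', hK', Or.inr ⟨b, h⟩⟩
    · exact ⟨K, hK, Or.inl ⟨a, h⟩⟩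
  by_cases hiA : i ∈ A
  · have hiB : i ∉ SB.E := by
      rw [hEB, List.mem_toFinset]
      intro h
      simp only [List.nodup_append, List.mem_append, List.mem_singleton] at hnd h
      obtain ⟨⟨⟨h1, h2, h3⟩, h4, h5⟩, -, h6⟩ := hnd
      rcases h with ((h | h) | h) | h
      · exact h3 i h i hiA rfl
      · exact hiq h
      · exact h5 i (Or.inr hiA) i h rfl
      · exact h6 i (Or.inl (Or.inr hiA)) ρ rfl h
    exact alive_tsum_left vB hiq hiB hXl (alive_uniform hndA hgA.2.1 a1 a2 (by simp [hiA]))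
  · have hiA' : i ∉ SA.E := by
      rw [hEA, List.mem_toFinset]
      simp [hiA, hiq]
    have hiB : i ∈ L ++ [q] ++ R ++ [ρ] := by
      simp only [List.mem_append, List.mem_singleton] at hi ⊢
      rcases hi with ((h | h) | h) | h
      · exact Or.inl (Or.inl (Or.inl h))
      · exact absurd h hiA
      · exact Or.inl (Or.inr h)
      · exact Or.inr h
    exact alive_tsum_right vA hiq hiA' hXr (alive_uniform hndB hgB.2.1 b1 b2 hiB)

/-! ### black and white -/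

theorem lam_bw (hLd : LdsStmt) {S U W : Net} (l : Finset ℕ) (x i : ℕ) (hx : x ∈ l)
    (hi : i = x ∨ l.erase x = {i}) (hV' : (Net.dsum U W).Valid) (hEU : IsEmpty U.G)
    (hEW : IsEmpty W.G) (hES : IsEmpty S.G) (e : (Net.dsum U W).G ≃ S.G)
    (hU : ∀ a ∈ U.flat.Lam, a = 0)
    (hW : ∀ m : W.flat.V →₀ ℤ, m ∈ W.flat.Lam ↔
      (∀ j : ℕ, j ∉ l.erase x → m (Sum.inl j) = 0) ∧ ∑ j ∈ l.erase x, m (Sum.inl j) = 0)
    (hS : ∀ m : S.flat.V →₀ ℤ, m ∈ S.flat.Lam ↔
      (∀ j : ℕ, j ∉ l → m (Sum.inl j) = 0) ∧ ∑ j ∈ l, m (Sum.inl j) = 0)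
    (m : (Net.dsum U W).flat.V →₀ ℤ) : m ∈ (Net.dsum U W).flat.Lam ↔
      (m.mapDomain (Sum.map id e) : S.flat.V →₀ ℤ) ∈ S.flat.Lam ∧
      (m.mapDomain (Sum.map id e) : S.flat.V →₀ ℤ) (Sum.inl i) = 0 := by
  rw [hLd U W hV', hS]
  have em : ∀ j, (m.mapDomain (Sum.map id e) : S.flat.V →₀ ℤ) (Sum.inl j) = m (Sum.inl j) :=
    fun j => mapE_inl e m j
  simp only [em]
  constructor
  · rintro ⟨a, ha, b, hb, rfl⟩
    rw [hU a ha, Finsupp.mapDomain_zero, zero_add]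
    have eb : ∀ j, (b.mapDomain (vdR U W)) (Sum.inl j) = b (Sum.inl j) :=
      fun j => vdR_inl U W b j
    simp only [eb]
    obtain ⟨h1, h2⟩ := (hW b).1 hb
    have hbx : b (Sum.inl x) = 0 := h1 x (by simp)
    refine ⟨⟨fun j hj => h1 j fun h => hj (Finset.mem_of_mem_erase h), ?_⟩, ?_⟩
    · rw [← Finset.add_sum_erase l _ hx, hbx, h2, add_zero]
    · rcases hi with rfl | hi
      · exact hbx
      · rw [hi, Finset.sum_singleton] at h2
        exact h2
  · rintro ⟨⟨h1, h2⟩, h3⟩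
    have hmx : m (Sum.inl x) = 0 := by
      rcases hi with rfl | hi
      · exact h3
      · rw [← Finset.add_sum_erase l _ hx, hi, Finset.sum_singleton, h3, add_zero] at h2
        exact h2
    have hEd : IsEmpty (Net.dsum U W).G := by
      constructor
      rintro (h | h)
      · exact hEU.false h
      · exact hEW.false h
    let e2 : (Net.dsum U W).G ≃ W.G := Equiv.equivOfIsEmpty _ _
    have em2 : ∀ j, (m.mapDomain (Sum.map id e2) : W.flat.V →₀ ℤ) (Sum.inl j) = m (Sum.inl j) :=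
      fun j => mapE_inl e2 m j
    refine ⟨0, zero_mem _, (m.mapDomain (Sum.map id e2) : W.flat.V →₀ ℤ), ?_, ?_⟩
    · rw [hW]
      simp only [em2]
      constructor
      · intro j hj
        by_cases hjx : j = x
        · rw [hjx]; exact hmx
        · exact h1 j fun h => hj (Finset.mem_erase.2 ⟨hjx, h⟩)
      · rw [← Finset.add_sum_erase l _ hx, hmx, zero_add] at h2
        exact h2
    · rw [Finsupp.mapDomain_zero, zero_add]
      ext v
      rcases v with j | h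
      · rw [vdR_inl]
        exact (em2 j).symm
      · exact (hEd.false h).elim

theorem single_lam_zero {U : Net} (hEU : IsEmpty U.G) (x : ℕ)
    (hU : ∀ m : U.flat.V →₀ ℤ, m ∈ U.flat.Lam ↔
      (∀ j : ℕ, j ∉ ({x} : Finset ℕ) → m (Sum.inl j) = 0) ∧
        ∑ j ∈ ({x} : Finset ℕ), m (Sum.inl j) = 0) : ∀ a ∈ U.flat.Lam, a = 0 := by
  intro a ha
  obtain ⟨h1, h2⟩ := (hU a).1 ha
  ext v
  rcases v with j | h
  · by_cases hj : j = x
    · rw [hj, Finsupp.zero_apply]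
      rwa [Finset.sum_singleton] at h2
    · exact h1 j (by simpa using hj)
  · exact (hEU.false h).elim

theorem black_Delta {l : Finset ℕ} {I : Finset ℕ} (h : I ∈ (Net.black l).M) :
    (Net.black l).Δ I = 1 := by
  rw [Net.Δ, if_pos h]

theorem white_Delta {l : Finset ℕ} {I : Finset ℕ} (h : I ∈ (Net.white l).M) :
    (Net.white l).Δ I = 1 := by
  rw [Net.Δ, if_pos h]

theorem pure_black (hF : FacetStmt) (hLd : LdsStmt) (hLb : LbwStmt) (l : Finset ℕ) (x : ℕ)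
    (hx : x ∈ l) (hl : 2 ≤ l.card) (i : ℕ) (hV : (Net.black l).Valid)
    (ha : (Net.black l).Alive i)
    (hd : ¬ (Net.dsum (Net.white {x}) (Net.black (l.erase x))).Alive i) :
    ∃ e : (Net.dsum (Net.white {x}) (Net.black (l.erase x))).G ≃ (Net.black l).G,
      PureEq (Net.black l) (Net.dsum (Net.white {x}) (Net.black (l.erase x))) i e := by
  obtain ⟨hV', hE, -, hM⟩ := hF _ _ hV (Net.Facet.black l x hx hl)
  have mB : ∀ (l : Finset ℕ) I, I ∈ (Net.black l).M ↔ ∃ y ∈ l, I = {y} := by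
    intro l I
    rw [Net.M, Finset.mem_image]
    exact exists_congr fun y => and_congr_right fun _ => eq_comm
  have mD : ∀ I, I ∈ (Net.dsum (Net.white {x}) (Net.black (l.erase x))).M ↔
      ∃ y ∈ l.erase x, I = {y} := by
    intro I
    rw [dsum_M]
    constructor
    · rintro ⟨J, hJ, K, hK, rfl⟩
      obtain ⟨y, hy, rfl⟩ := (mB _ K).1 hK
      rw [Net.M, Finset.mem_image] at hJ
      obtain ⟨z, hz, rfl⟩ := hJ
      rw [Finset.mem_singleton] at hz
      subst hz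
      exact ⟨y, hy, by simp⟩
    · rintro ⟨y, hy, rfl⟩
      refine ⟨∅, ?_, {y}, (mB _ _).2 ⟨y, hy, rfl⟩, by simp⟩
      rw [Net.M, Finset.mem_image]
      exact ⟨x, by simp, by simp⟩
  have hil : i ∈ l := alive_mem_E hV ha
  have hix : i = x ∨ l.erase x = {i} := by
    by_cases h : i = x
    · exact Or.inl h
    · right
      by_contra hne
      have hi' : i ∈ l.erase x := Finset.mem_erase.2 ⟨h, hil⟩
      have : ∃ y ∈ l.erase x, y ≠ i := by
        by_contra hcon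
        push Not at hcon
        exact hne (Finset.eq_singleton_iff_unique_mem.2 ⟨hi', hcon⟩)
      obtain ⟨y, hy, hyi⟩ := this
      exact hd ⟨⟨{i}, (mD _).2 ⟨i, hi', rfl⟩, by simp⟩,
        ⟨{y}, (mD _).2 ⟨y, hy, rfl⟩, by simpa using Ne.symm hyi⟩⟩
  have hE1 : IsEmpty (Net.white {x}).G := inferInstanceAs (IsEmpty Empty)
  have hE2 : IsEmpty (Net.black (l.erase x)).G := inferInstanceAs (IsEmpty Empty)
  have hE3 : IsEmpty (Net.black l).G := inferInstanceAs (IsEmpty Empty)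
  have hE4 : IsEmpty (Net.dsum (Net.white {x}) (Net.black (l.erase x))).G := by
    constructor
    rintro (h | h)
    · exact hE1.false h
    · exact hE2.false h
  have hne : (l.erase x).Nonempty := by
    rw [← Finset.card_pos, Finset.card_erase_of_mem hx]; omega
  refine ⟨Equiv.equivOfIsEmpty _ _, ?_, ?_, ?_⟩
  · intro I hI
    obtain ⟨y, hy, rfl⟩ := (mD I).1 hI
    have hw : (∅ : Finset ℕ) ∈ (Net.white {x}).M := by
      rw [Net.M, Finset.mem_image]
      exact ⟨x, by simp, by simp⟩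
    have hb : ({y} : Finset ℕ) ∈ (Net.black (l.erase x)).M := (mB _ _).2 ⟨y, hy, rfl⟩
    have h1 := dsum_Delta hV' ∅ {y} hw hb
    rw [Finset.empty_union] at h1
    rw [h1, white_Delta hw, black_Delta hb,
      black_Delta ((mB l _).2 ⟨y, Finset.mem_of_mem_erase hy, rfl⟩)]
    simp
  · rcases hix with rfl | hix
    · left
      ext I
      rw [mD, Finset.mem_filter, mB]
      constructor
      · rintro ⟨y, hy, rfl⟩
        exact ⟨⟨y, Finset.mem_of_mem_erase hy, rfl⟩, by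
          have := (Finset.mem_erase.1 hy).1
          simpa using Ne.symm this⟩
      · rintro ⟨⟨y, hy, rfl⟩, h⟩
        exact ⟨y, Finset.mem_erase.2 ⟨by simpa using Ne.symm (by simpa using h : i ≠ y), hy⟩, rfl⟩
    · right
      ext I
      rw [mD, Finset.mem_filter, mB, hix]
      constructor
      · rintro ⟨y, hy, rfl⟩
        rw [Finset.mem_singleton] at hy
        subst hy
        exact ⟨⟨y, hil, rfl⟩, by simp⟩
      · rintro ⟨⟨y, hy, rfl⟩, h⟩
        exact ⟨i, by simp, by rw [Finset.mem_singleton] at h; rw [h]⟩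
  · exact lam_bw hLd l x i hx hix hV' hE1 hE2 hE3 _
      (single_lam_zero hE1 x (hLb {x} ⟨x, by simp⟩).2) (hLb _ hne).1 (hLb l ⟨x, hx⟩).1

theorem pure_white (hF : FacetStmt) (hLd : LdsStmt) (hLb : LbwStmt) (l : Finset ℕ) (x : ℕ)
    (hx : x ∈ l) (hl : 2 ≤ l.card) (i : ℕ) (hV : (Net.white l).Valid)
    (ha : (Net.white l).Alive i)
    (hd : ¬ (Net.dsum (Net.black {x}) (Net.white (l.erase x))).Alive i) :
    ∃ e : (Net.dsum (Net.black {x}) (Net.white (l.erase x))).G ≃ (Net.white l).G,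
      PureEq (Net.white l) (Net.dsum (Net.black {x}) (Net.white (l.erase x))) i e := by
  obtain ⟨hV', hE, -, hM⟩ := hF _ _ hV (Net.Facet.white l x hx hl)
  have mB : ∀ (l : Finset ℕ) I, I ∈ (Net.white l).M ↔ ∃ y ∈ l, I = l.erase y := by
    intro l I
    rw [Net.M, Finset.mem_image]
    exact exists_congr fun y => and_congr_right fun _ => eq_comm
  have hxy : ∀ y ∈ l.erase x, ({x} : Finset ℕ) ∪ (l.erase x).erase y = l.erase y := by
    intro y hy
    have hy' := Finset.mem_erase.1 hy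
    ext z
    simp only [Finset.mem_union, Finset.mem_singleton, Finset.mem_erase]
    constructor
    · rintro (rfl | ⟨h1, h2, h3⟩)
      · exact ⟨Ne.symm hy'.1, hx⟩
      · exact ⟨h1, h3⟩
    · rintro ⟨h1, h2⟩
      by_cases h : z = x
      · exact Or.inl h
      · exact Or.inr ⟨h1, h, h2⟩
  have mD : ∀ I, I ∈ (Net.dsum (Net.black {x}) (Net.white (l.erase x))).M ↔
      ∃ y ∈ l.erase x, I = l.erase y := by
    intro I
    rw [dsum_M]
    constructor
    · rintro ⟨J, hJ, K, hK, rfl⟩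
      obtain ⟨y, hy, rfl⟩ := (mB _ K).1 hK
      rw [Net.M, Finset.mem_image] at hJ
      obtain ⟨z, hz, rfl⟩ := hJ
      rw [Finset.mem_singleton] at hz
      subst hz
      exact ⟨y, hy, hxy y hy⟩
    · rintro ⟨y, hy, rfl⟩
      refine ⟨{x}, ?_, (l.erase x).erase y, (mB _ _).2 ⟨y, hy, rfl⟩, (hxy y hy).symm⟩
      rw [Net.M, Finset.mem_image]
      exact ⟨x, by simp, by simp⟩
  have hil : i ∈ l := alive_mem_E hV ha
  have hix : i = x ∨ l.erase x = {i} := by
    by_cases h : i = x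
    · exact Or.inl h
    · right
      by_contra hne
      have hi' : i ∈ l.erase x := Finset.mem_erase.2 ⟨h, hil⟩
      have : ∃ y ∈ l.erase x, y ≠ i := by
        by_contra hcon
        push Not at hcon
        exact hne (Finset.eq_singleton_iff_unique_mem.2 ⟨hi', hcon⟩)
      obtain ⟨y, hy, hyi⟩ := this
      exact hd ⟨⟨l.erase y, (mD _).2 ⟨y, hy, rfl⟩, Finset.mem_erase.2 ⟨Ne.symm hyi, hil⟩⟩,
        ⟨l.erase i, (mD _).2 ⟨i, hi', rfl⟩, by simp⟩⟩
  have hE1 : IsEmpty (Net.black {x}).G := inferInstanceAs (IsEmpty Empty)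
  have hE2 : IsEmpty (Net.white (l.erase x)).G := inferInstanceAs (IsEmpty Empty)
  have hE3 : IsEmpty (Net.white l).G := inferInstanceAs (IsEmpty Empty)
  have hE4 : IsEmpty (Net.dsum (Net.black {x}) (Net.white (l.erase x))).G := by
    constructor
    rintro (h | h)
    · exact hE1.false h
    · exact hE2.false h
  have hne : (l.erase x).Nonempty := by
    rw [← Finset.card_pos, Finset.card_erase_of_mem hx]; omega
  refine ⟨Equiv.equivOfIsEmpty _ _, ?_, ?_, ?_⟩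
  · intro I hI
    obtain ⟨y, hy, rfl⟩ := (mD I).1 hI
    have hw : ({x} : Finset ℕ) ∈ (Net.black {x}).M := by
      rw [Net.M, Finset.mem_image]
      exact ⟨x, by simp, by simp⟩
    have hb : (l.erase x).erase y ∈ (Net.white (l.erase x)).M := (mB _ _).2 ⟨y, hy, rfl⟩
    have h1 := dsum_Delta hV' {x} ((l.erase x).erase y) hw hb
    rw [hxy y hy] at h1
    rw [h1, black_Delta hw, white_Delta hb,
      white_Delta ((mB l _).2 ⟨y, Finset.mem_of_mem_erase hy, rfl⟩)]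
    simp
  · rcases hix with rfl | hix
    · right
      ext I
      rw [mD, Finset.mem_filter, mB]
      constructor
      · rintro ⟨y, hy, rfl⟩
        exact ⟨⟨y, Finset.mem_of_mem_erase hy, rfl⟩,
          Finset.mem_erase.2 ⟨Ne.symm (Finset.mem_erase.1 hy).1, hil⟩⟩
      · rintro ⟨⟨y, hy, rfl⟩, h⟩
        exact ⟨y, Finset.mem_erase.2 ⟨Ne.symm (Finset.mem_erase.1 h).1, hy⟩, rfl⟩
    · left
      ext I
      rw [mD, Finset.mem_filter, mB, hix]
      constructor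
      · rintro ⟨y, hy, rfl⟩
        rw [Finset.mem_singleton] at hy
        subst hy
        exact ⟨⟨y, hil, rfl⟩, by simp⟩
      · rintro ⟨⟨y, hy, rfl⟩, h⟩
        have : i = y := by
          by_contra hne
          exact h (Finset.mem_erase.2 ⟨hne, hil⟩)
        exact ⟨i, by simp, by rw [this]⟩
  · exact lam_bw hLd l x i hx hix hV' hE1 hE2 hE3 _
      (single_lam_zero hE1 x (hLb {x} ⟨x, by simp⟩).1) (hLb _ hne).2 (hLb l ⟨x, hx⟩).2

/-! ### the main induction -/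

theorem mapE_refl {T : Net} (a : T.flat.V →₀ ℤ) :
    (a.mapDomain (Sum.map id (Equiv.refl T.G)) : T.flat.V →₀ ℤ) = a := by
  have : (Sum.map (id : ℕ → ℕ) (Equiv.refl T.G)) = id := by
    funext v
    rcases v with v | v <;> rfl
  rw [this, Finsupp.mapDomain_id]

theorem lam_refl {T : Net} (a : T.flat.V →₀ ℤ) : a ∈ T.flat.Lam ↔
    (a.mapDomain (Sum.map id (Equiv.refl T.G)) : T.flat.V →₀ ℤ) ∈ T.flat.Lam ∧ True := by
  rw [mapE_refl, and_true]

theorem Delta_refl {T : Net} (I : Finset ℕ) (_ : I ∈ T.M) :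
    rename (Equiv.refl T.G) (T.Δ I) = T.Δ I := rename_id_apply _

theorem lam_pure {S S' : Net} {i : ℕ} {e : S'.G ≃ S.G} (h : PureEq S S' i e)
    (a : S'.flat.V →₀ ℤ) : a ∈ S'.flat.Lam ↔
    (a.mapDomain (Sum.map id e) : S.flat.V →₀ ℤ) ∈ S.flat.Lam ∧
      (fun f : ℕ → ℤ => f i = 0) (fun j => a (Sum.inl j)) := by
  have := h.2.2 a
  rw [mapE_inl e a i] at this
  exact this

theorem sub_of_pure {S S' : Net} {i : ℕ} {e : S'.G ≃ S.G} (h : PureEq S S' i e) : S'.M ⊆ S.M := by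
  rcases h.2.1 with h | h <;> rw [h] <;> exact Finset.filter_subset _ _

/-- from `PureEq` for `S` with the label `q` to `PureEq`-like facts with another label: lattice
condition -/
theorem pure_zero {S S' : Net} {i q : ℕ} {e e' : S'.G ≃ S.G} (h : PureEq S S' i e)
    (h' : PureEq S S' q e') (a : S.flat.V →₀ ℤ) (ha : a ∈ S.flat.Lam)
    (hai : a (Sum.inl i) = 0) : a (Sum.inl q) = 0 := by
  have h1 : (a.mapDomain (Sum.map id e.symm) : S'.flat.V →₀ ℤ) ∈ S'.flat.Lam := by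
    rw [h.2.2, mapE_symm]
    exact ⟨ha, hai⟩
  have h2 := ((h'.2.2 _).1 h1).2
  rw [mapE_inl e' _ q, mapE_inl e.symm a q] at h2
  exact h2

theorem npure (hF : FacetStmt) (hLd : LdsStmt) (hLt : LtsStmt) (hLb : LbwStmt)
    (hLs : LsumStmt) (hVt : VtxGStmt) : PureStmt := by
  intro S S' i hV h ha hd
  induction h generalizing i with
  | black l x hx hl => exact pure_black hF hLd hLb l x hx hl i hV ha hd
  | white l x hx hl => exact pure_white hF hLd hLb l x hx hl i hV ha hd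
  | gen L A R ρ q d r SA SB hq hA hB =>
    have hi := alive_mem_E hV ha
    exact absurd (gen_alive hVt L A R ρ q d r SA SB hV hq hA hB i (List.mem_toFinset.1 hi)) hd
  | dsumL S T S' h ih =>
    obtain ⟨hV', -, -, -⟩ := hF _ _ hV (Net.Facet.dsumL S T S' h)
    obtain ⟨-, hE, -, hM⟩ := hF _ _ hV.1 h
    have hi := alive_mem_E hV ha
    by_cases hiS : i ∈ S.E
    · have hiT : i ∉ T.E := fun h => (Finset.disjoint_left.1 hV.2.2) hiS h
      obtain ⟨e, hp⟩ := ih i hV.1 ((alive_dsum_left hV.2.1 hiT).1 ha)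
        fun h => hd ((alive_dsum_left hV.2.1 hiT).2 h)
      refine ⟨Equiv.sumCongr e (Equiv.refl _), ?_, ?_, ?_⟩
      · exact Delta_dsum hV hV' e (Equiv.refl _) hM.subset (Finset.Subset.refl _) hp.1 Delta_refl
      · have hTt : T.M = T.M.filter fun _ => True := by simp
        have hn : ∀ K ∈ T.M, i ∉ K := fun K hK h => hiT ((Net.wf' T hV.2.1).sub K hK h)
        rcases hp.2.1 with h1 | h1
        · left
          refine M_dsum _ _ _ h1 hTt fun J _ K hK => ?_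
          rw [mem_iff_dleft (hn K hK)]
          simp
        · right
          refine M_dsum _ _ _ h1 hTt fun J _ K hK => ?_
          rw [mem_iff_dleft (hn K hK)]
          simp
      · refine lam_dsum hLd hV hV' e (Equiv.refl _) (fun f => f i = 0) (fun _ => True) (lam_pure hp)
          lam_refl ?_
        intro a _ b hb
        have := (hLs T hV.2.1 b hb).1 i hiT
        simp [this]
    · have hiS' : i ∉ S'.E := by rw [hE]; exact hiS
      exact absurd ((alive_dsum_right hV'.1 hiS').2 ((alive_dsum_right hV.1 hiS).1 ha)) hd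
  | dsumR S T T' h ih =>
    obtain ⟨hV', -, -, -⟩ := hF _ _ hV (Net.Facet.dsumR S T T' h)
    obtain ⟨-, hE, -, hM⟩ := hF _ _ hV.2.1 h
    have hi := alive_mem_E hV ha
    by_cases hiT : i ∈ T.E
    · have hiS : i ∉ S.E := fun h => (Finset.disjoint_left.1 hV.2.2) h hiT
      obtain ⟨e, hp⟩ := ih i hV.2.1 ((alive_dsum_right hV.1 hiS).1 ha)
        fun h => hd ((alive_dsum_right hV.1 hiS).2 h)
      refine ⟨Equiv.sumCongr (Equiv.refl _) e, ?_, ?_, ?_⟩
      · exact Delta_dsum hV hV' (Equiv.refl _) e (Finset.Subset.refl _) hM.subset Delta_refl hp.1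
      · have hTt : S.M = S.M.filter fun _ => True := by simp
        have hn : ∀ K ∈ S.M, i ∉ K := fun K hK h => hiS ((Net.wf' S hV.1).sub K hK h)
        rcases hp.2.1 with h1 | h1
        · left
          refine M_dsum _ _ _ hTt h1 fun J hJ K _ => ?_
          rw [mem_iff_dright (hn J hJ)]
          simp
        · right
          refine M_dsum _ _ _ hTt h1 fun J hJ K _ => ?_
          rw [mem_iff_dright (hn J hJ)]
          simp
      · refine lam_dsum hLd hV hV' (Equiv.refl _) e (fun _ => True) (fun f => f i = 0) lam_refl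
          (lam_pure hp) ?_
        intro a ha b _
        have := (hLs S hV.1 a ha).1 i hiS
        simp [this]
    · have hiT' : i ∉ T'.E := by rw [hE]; exact hiT
      exact absurd ((alive_dsum_left hV'.2.1 hiT').2 ((alive_dsum_left hV.2.1 hiT).1 ha)) hd
  | tsumL S T S' q hq h ih =>
    obtain ⟨hV', -, -, -⟩ := hF _ _ hV (Net.Facet.tsumL S T S' q hq h)
    obtain ⟨-, hE, -, hM⟩ := hF _ _ hV.1 h
    have hi := alive_mem_E hV ha
    have hiq : i ≠ q := by
      rcases Finset.mem_union.1 hi with h | h <;> exact (Finset.mem_erase.1 h).1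
    have hdis := hV.2.2.2.2.2.2.1
    by_cases hiS : i ∈ S.E
    · have hiT : i ∉ T.E := fun h => (Finset.disjoint_left.1 hdis)
        (Finset.mem_erase.2 ⟨hiq, hiS⟩) (Finset.mem_erase.2 ⟨hiq, h⟩)
      obtain ⟨e, hp⟩ := ih i hV.1 (alive_of_tsum_left hV.2.1 hiq hiT ha)
        fun h => hd (alive_tsum_left hV.2.1 hiq hiT (match_left hV') h)
      refine ⟨Equiv.sumCongr e (Equiv.refl _), ?_, ?_, ?_⟩
      · exact Delta_tsum hV hV' e (Equiv.refl _) hM.subset (Finset.Subset.refl _) hp.1 Delta_refl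
      · have hTt : T.M = T.M.filter fun _ => True := by simp
        have hn : ∀ K ∈ T.M, i ∉ K := fun K hK h => hiT ((Net.wf' T hV.2.1).sub K hK h)
        rcases hp.2.1 with h1 | h1
        · left
          refine M_tsum _ _ _ h1 hTt fun J _ K hK _ => ?_
          rw [mem_iff_left hiq (hn K hK)]
          simp
        · right
          refine M_tsum _ _ _ h1 hTt fun J _ K hK _ => ?_
          rw [mem_iff_left hiq (hn K hK)]
          simp
      · refine lam_tsum hLt hV hV' e (Equiv.refl _) (fun f => f i = 0) (fun _ => True) (lam_pure hp)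
          lam_refl ?_
        intro a _ b hb _
        have := (hLs T hV.2.1 b hb).1 i hiT
        simp [this]
    · have hiS' : i ∉ S'.E := by rw [hE]; exact hiS
      exact absurd (alive_tsum_right hV'.1 hiq hiS' (match_right hV')
        (alive_of_tsum_right hV.1 hiq hiS ha)) hd
  | tsumR S T T' q hq h ih =>
    obtain ⟨hV', -, -, -⟩ := hF _ _ hV (Net.Facet.tsumR S T T' q hq h)
    obtain ⟨-, hE, -, hM⟩ := hF _ _ hV.2.1 h
    have hi := alive_mem_E hV ha
    have hiq : i ≠ q := by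
      rcases Finset.mem_union.1 hi with h | h <;> exact (Finset.mem_erase.1 h).1
    have hdis := hV.2.2.2.2.2.2.1
    by_cases hiT : i ∈ T.E
    · have hiS : i ∉ S.E := fun h => (Finset.disjoint_left.1 hdis)
        (Finset.mem_erase.2 ⟨hiq, h⟩) (Finset.mem_erase.2 ⟨hiq, hiT⟩)
      obtain ⟨e, hp⟩ := ih i hV.2.1 (alive_of_tsum_right hV.1 hiq hiS ha)
        fun h => hd (alive_tsum_right hV.1 hiq hiS (match_right hV') h)
      refine ⟨Equiv.sumCongr (Equiv.refl _) e, ?_, ?_, ?_⟩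
      · exact Delta_tsum hV hV' (Equiv.refl _) e (Finset.Subset.refl _) hM.subset Delta_refl hp.1
      · have hTt : S.M = S.M.filter fun _ => True := by simp
        have hn : ∀ K ∈ S.M, i ∉ K := fun K hK h => hiS ((Net.wf' S hV.1).sub K hK h)
        rcases hp.2.1 with h1 | h1
        · left
          refine M_tsum _ _ _ hTt h1 fun J hJ K _ _ => ?_
          rw [mem_iff_right hiq (hn J hJ)]
          simp
        · right
          refine M_tsum _ _ _ hTt h1 fun J hJ K _ _ => ?_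
          rw [mem_iff_right hiq (hn J hJ)]
          simp
      · refine lam_tsum hLt hV hV' (Equiv.refl _) e (fun _ => True) (fun f => f i = 0) lam_refl
          (lam_pure hp) ?_
        intro a ha b _ _
        have := (hLs S hV.1 a ha).1 i hiS
        simp [this]
    · have hiT' : i ∉ T'.E := by rw [hE]; exact hiT
      exact absurd (alive_tsum_left hV'.2.1 hiq hiT' (match_left hV')
        (alive_of_tsum_left hV.2.1 hiq hiT ha)) hd
  | tsumB S T S' T' q hS hT hq h h' ih ih' =>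
    obtain ⟨hV', -, -, -⟩ := hF _ _ hV (Net.Facet.tsumB S T S' T' q hS hT hq h h')
    obtain ⟨hVS', hES, -, hMS⟩ := hF _ _ hV.1 h
    obtain ⟨hVT', hET, -, hMT⟩ := hF _ _ hV.2.1 h'
    have hi := alive_mem_E hV ha
    have hiq : i ≠ q := by
      rcases Finset.mem_union.1 hi with h | h <;> exact (Finset.mem_erase.1 h).1
    have hdis := hV.2.2.2.2.2.2.1
    -- `q` is dead in `S'` and in `T'`
    have dS : ¬ S'.Alive q := by
      rintro ⟨⟨I, hI, a⟩, ⟨I', hI', b⟩⟩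
      rcases hq with ⟨h1, -⟩ | ⟨h1, -⟩
      · exact h1 I hI a
      · exact b (h1 I' hI')
    have dT : ¬ T'.Alive q := by
      rintro ⟨⟨I, hI, a⟩, ⟨I', hI', b⟩⟩
      rcases hq with ⟨-, h1⟩ | ⟨-, h1⟩
      · exact b (h1 I' hI')
      · exact h1 I hI a
    obtain ⟨eS, pS⟩ := ih q hV.1 hS dS
    obtain ⟨eT, pT⟩ := ih' q hV.2.1 hT dT
    -- the bases of S' and T' in terms of q
    have hchar : (S'.M = S.M.filter (fun I => q ∉ I) ∧ T'.M = T.M.filter (fun I => q ∈ I)) ∨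
        (S'.M = S.M.filter (fun I => q ∈ I) ∧ T'.M = T.M.filter (fun I => q ∉ I)) := by
      obtain ⟨J0, hJ0⟩ := (Net.wf' S' hVS').nonempty
      obtain ⟨K0, hK0⟩ := (Net.wf' T' hVT').nonempty
      rcases hq with ⟨h1, h2⟩ | ⟨h1, h2⟩
      · left
        constructor
        · rcases pS.2.1 with h3 | h3
          · exact h3
          · rw [h3, Finset.mem_filter] at hJ0
            exact absurd hJ0.2 (h1 J0 (by rw [h3, Finset.mem_filter]; exact hJ0))
        · rcases pT.2.1 with h3 | h3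
          · rw [h3, Finset.mem_filter] at hK0
            exact absurd (h2 K0 (by rw [h3, Finset.mem_filter]; exact hK0)) hK0.2
          · exact h3
      · right
        constructor
        · rcases pS.2.1 with h3 | h3
          · rw [h3, Finset.mem_filter] at hJ0
            exact absurd (h1 J0 (by rw [h3, Finset.mem_filter]; exact hJ0)) hJ0.2
          · exact h3
        · rcases pT.2.1 with h3 | h3
          · exact h3
          · rw [h3, Finset.mem_filter] at hK0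
            exact absurd hK0.2 (h2 K0 (by rw [h3, Finset.mem_filter]; exact hK0))
    -- S' and T' determine each other
    have hmatch : ∀ J ∈ S.M, ∀ K ∈ T.M, Xq q J K → (J ∈ S'.M ↔ K ∈ T'.M) := by
      intro J hJ K hK hX
      rcases hchar with ⟨h1, h2⟩ | ⟨h1, h2⟩ <;> rw [h1, h2, Finset.mem_filter, Finset.mem_filter]
      · rcases hX with ⟨a, b⟩ | ⟨a, b⟩ <;> simp [a, b, hJ, hK]
      · rcases hX with ⟨a, b⟩ | ⟨a, b⟩ <;> simp [a, b, hJ, hK]
    have hMM : ∀ (P : Finset ℕ → Prop) [DecidablePred P],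
        (∀ J ∈ S.M, ∀ K ∈ T.M, Xq q J K → (J ∈ S'.M ↔ P ((J ∪ K).erase q))) →
        (Net.tsum S' T' q).M = (Net.tsum S T q).M.filter P := by
      intro P _ hP
      ext I
      rw [Finset.mem_filter, tsum_M, tsum_M]
      constructor
      · rintro ⟨J, hJ, K, hK, hX, rfl⟩
        exact ⟨⟨J, hMS.subset hJ, K, hMT.subset hK, hX, rfl⟩,
          (hP J (hMS.subset hJ) K (hMT.subset hK) hX).1 hJ⟩
      · rintro ⟨⟨J, hJ, K, hK, hX, rfl⟩, h3⟩
        have h4 := (hP J hJ K hK hX).2 h3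
        exact ⟨J, h4, K, (hmatch J hJ K hK hX).1 h4, hX, rfl⟩
    refine ⟨Equiv.sumCongr eS eT, ?_, ?_, ?_⟩
    · exact Delta_tsum hV hV' eS eT hMS.subset hMT.subset pS.1 pT.1
    · by_cases hiS : i ∈ S.E
      · have hiT : i ∉ T.E := fun h => (Finset.disjoint_left.1 hdis)
          (Finset.mem_erase.2 ⟨hiq, hiS⟩) (Finset.mem_erase.2 ⟨hiq, h⟩)
        have hiT' : i ∉ T'.E := by rw [hET]; exact hiT
        have hn : ∀ K ∈ T.M, i ∉ K := fun K hK h => hiT ((Net.wf' T hV.2.1).sub K hK h)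
        obtain ⟨e, hp⟩ := ih i hV.1 (alive_of_tsum_left hV.2.1 hiq hiT ha)
          fun h => hd (alive_tsum_left hVT' hiq hiT' (match_left hV') h)
        rcases hp.2.1 with h1 | h1
        · left
          refine hMM _ fun J hJ K hK _ => ?_
          rw [h1, Finset.mem_filter, mem_iff_left hiq (hn K hK)]
          exact and_iff_right hJ
        · right
          refine hMM _ fun J hJ K hK _ => ?_
          rw [h1, Finset.mem_filter, mem_iff_left hiq (hn K hK)]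
          exact and_iff_right hJ
      · have hiT : i ∈ T.E := by
          rcases Finset.mem_union.1 hi with h | h
          · exact absurd (Finset.mem_erase.1 h).2 hiS
          · exact (Finset.mem_erase.1 h).2
        have hiS' : i ∉ S'.E := by rw [hES]; exact hiS
        have hn : ∀ K ∈ S.M, i ∉ K := fun K hK h => hiS ((Net.wf' S hV.1).sub K hK h)
        obtain ⟨e, hp⟩ := ih' i hV.2.1 (alive_of_tsum_right hV.1 hiq hiS ha)
          fun h => hd (alive_tsum_right hVS' hiq hiS' (match_right hV') h)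
        rcases hp.2.1 with h1 | h1
        · left
          refine hMM _ fun J hJ K hK hX => ?_
          rw [hmatch J hJ K hK hX, h1, Finset.mem_filter, mem_iff_right hiq (hn J hJ)]
          exact and_iff_right hK
        · right
          refine hMM _ fun J hJ K hK hX => ?_
          rw [hmatch J hJ K hK hX, h1, Finset.mem_filter, mem_iff_right hiq (hn J hJ)]
          exact and_iff_right hK
    · refine lam_tsum hLt hV hV' eS eT (fun f => f q = 0) (fun f => f q = 0) (lam_pure pS)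
        (lam_pure pT) ?_
      intro a haL b hbL hab
      by_cases hiS : i ∈ S.E
      · have hiT : i ∉ T.E := fun h => (Finset.disjoint_left.1 hdis)
          (Finset.mem_erase.2 ⟨hiq, hiS⟩) (Finset.mem_erase.2 ⟨hiq, h⟩)
        have hiT' : i ∉ T'.E := by rw [hET]; exact hiT
        have hb0 := (hLs T hV.2.1 b hbL).1 i hiT
        obtain ⟨e, hp⟩ := ih i hV.1 (alive_of_tsum_left hV.2.1 hiq hiT ha)
          fun h => hd (alive_tsum_left hVT' hiq hiT' (match_left hV') h)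
        constructor
        · rintro ⟨h1, -⟩
          rw [hb0, add_zero]
          exact pure_zero pS hp a haL h1
        · intro h1
          rw [hb0, add_zero] at h1
          have h2 := pure_zero hp pS a haL h1
          refine ⟨h2, ?_⟩
          rw [h2, zero_add] at hab
          exact hab
      · have hiT : i ∈ T.E := by
          rcases Finset.mem_union.1 hi with h | h
          · exact absurd (Finset.mem_erase.1 h).2 hiS
          · exact (Finset.mem_erase.1 h).2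
        have hiS' : i ∉ S'.E := by rw [hES]; exact hiS
        have ha0 := (hLs S hV.1 a haL).1 i hiS
        obtain ⟨e, hp⟩ := ih' i hV.2.1 (alive_of_tsum_right hV.1 hiq hiS ha)
          fun h => hd (alive_tsum_right hVS' hiq hiS' (match_right hV') h)
        constructor
        · rintro ⟨-, h1⟩
          rw [ha0, zero_add]
          exact pure_zero pT hp b hbL h1
        · intro h1
          rw [ha0, zero_add] at h1
          have h2 := pure_zero hp pT b hbL h1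
          refine ⟨?_, h2⟩
          rw [h2, add_zero] at hab
          exact hab

end ABCT.H14
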