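import Pool.Agent.Helper14_ABCT.Rbd

set_option autoImplicit false

open MvPolynomial Topology

namespace PosGeom.H14

variable {ι : Type} {d : ℕ}

theorem mem_pos_rep (N : NCell ι d) {z : ι → ℝ} (hz : z ∈ {z | z ∈ N.Z ∨ -z ∈ N.Z}) :
    ∃ (τ : ℝ) (x : Fin d → ℝ), τ ≠ 0 ∧ (∀ j, 0 < x j) ∧ ∀ i, z i = τ * evN x (N.L i) := by
  rcases hz with ⟨τ, x, hτ, hx, h⟩ | ⟨τ, x, hτ, hx, h⟩
  · exact ⟨τ, x, hτ.ne', hx, h⟩
  · refine ⟨-τ, x, neg_ne_zero.2 hτ.ne', hx, fun i => ?_⟩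
    have := h i
    rw [Pi.neg_apply] at this
    linarith

theorem LF_ne (N : NCell ι d) {i : ι} (hi : N.L i ≠ 0) : N.LF i ≠ 0 := by
  intro h
  apply hi
  unfold NCell.LF at h
  have h1 : evN (yv d) (N.L i) = algebraMap (MvPolynomial (Fin d) ℂ) (Fd d)
      (evN (fun j => X j) (N.L i)) :=
    (evN_hom (algebraMap (MvPolynomial (Fin d) ℂ) (Fd d)) (fun j => X j) (N.L i)).symm
  rw [h1, IsFractionRing.to_map_eq_zero_iff] at h
  have h4 : evN (fun j => (X j : MvPolynomial (Fin d) ℂ)) (N.L i) =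
      map (Nat.castRingHom ℂ) (N.L i) := by
    rw [evN, ← eval₂_eta (map (Nat.castRingHom ℂ) (N.L i)), eval₂_map]
    congr 1
  rw [h4] at h
  exact map_injective (Nat.castRingHom ℂ) Nat.cast_injective (by rw [h, map_zero])

theorem aeval_LF_of_mem [Fintype ι] (hCf : CfldStmt) (N : NCell ι d) (hG : N.Good)
    {F : MvPolynomial ι ℂ} (hF : F ∈ N.var.I) : aeval N.LF F = 0 := by
  have h4 := (hCf ι d N hG).2.2.2
  have hsum := sum_homogeneousComponent F
  rw [← hsum, map_sum]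
  refine Finset.sum_eq_zero fun m _ => ?_
  exact (h4 _ m (homogeneousComponent_isHomogeneous m F)).2 (N.var.homog F hF m)

/-- the coordinates of the generic point in terms of the chart -/
theorem gen_repr [Fintype ι] (hS : SpecStmt) (hCf : CfldStmt) (N : NCell ι d) (hG : N.Good)
    (e : N.var.K ≃ₐ[ℂ] Fd d) (he : N.IsE e) :
    ∃ u : N.var.Frac, u ≠ 0 ∧ ∀ i, N.var.gen i = u * evN (fun j => ((N.ch e j : N.var.K) : N.var.Frac)) (N.L i) := by
  obtain ⟨i0, hi0⟩ := N.ne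
  have hL0 := LF_ne N hi0
  obtain ⟨-, -, -, -, -, -, h7, -⟩ := hS ι N.var (Fd d) N.LF
    (fun F hF => aeval_LF_of_mem hCf N hG hF) ⟨i0, hL0⟩
  have hinj : Function.Injective (fun f : N.var.K => (f : N.var.Frac)) := Subtype.val_injective
  -- the elements evN (ch)
  have hch : ∀ i, ((e.symm (N.LF i) : N.var.K) : N.var.Frac) =
      evN (fun j => ((N.ch e j : N.var.K) : N.var.Frac)) (N.L i) := by
    intro i
    have h1 := evN_hom (((e.symm : Fd d ≃ₐ[ℂ] N.var.K) : Fd d →ₐ[ℂ] N.var.K) : Fd d →+* N.var.K)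
      (yv d) (N.L i)
    have h2 := evN_hom (algebraMap N.var.K N.var.Frac) (fun j => N.ch e j) (N.L i)
    have h3 : e.symm (N.LF i) = evN (fun j => N.ch e j) (N.L i) := h1
    rw [h3]
    exact h2
  have hu0 : evN (fun j => ((N.ch e j : N.var.K) : N.var.Frac)) (N.L i0) ≠ 0 := by
    rw [← hch]
    intro h
    have h1 : e.symm (N.LF i0) = 0 := by
      apply hinj
      simpa using h
    exact hL0 (by simpa using h1)
  have hgen : ∀ i, N.var.gen i * evN (fun j => ((N.ch e j : N.var.K) : N.var.Frac)) (N.L i0) =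
      N.var.gen i0 * evN (fun j => ((N.ch e j : N.var.K) : N.var.Frac)) (N.L i) := by
    intro i
    obtain ⟨f, hf, hf'⟩ := h7 1 (X i) (X i0) (isHomogeneous_X ℂ i) (isHomogeneous_X ℂ i0)
      (by rw [aeval_X]; exact hL0)
    rw [aeval_X, aeval_X] at hf hf'
    have h8 := (he f _).1 hf'
    have h9 : f = e.symm (N.LF i) / e.symm (N.LF i0) := by
      rw [← map_div₀, ← h8]; simp
    have h10 : (f : N.var.Frac) * evN (fun j => ((N.ch e j : N.var.K) : N.var.Frac)) (N.L i0) =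
        evN (fun j => ((N.ch e j : N.var.K) : N.var.Frac)) (N.L i) := by
      rw [h9, ← hch, ← hch]
      have h11 : ((e.symm (N.LF i0) : N.var.K) : N.var.Frac) ≠ 0 := by rw [hch]; exact hu0
      change ((e.symm (N.LF i) : N.var.K) : N.var.Frac) / ((e.symm (N.LF i0) : N.var.K) : N.var.Frac) * _ = _
      rw [div_mul_cancel₀ _ h11]
    rw [← hf, ← h10]
    ring
  have hg0 : N.var.gen i0 ≠ 0 := by
    intro h
    obtain ⟨i, hi⟩ := N.var.rel
    apply hi
    have h1 := hgen i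
    rw [h, zero_mul] at h1
    have h2 := (mul_eq_zero.1 h1).resolve_right hu0
    unfold PVar.gen at h2
    rw [IsFractionRing.to_map_eq_zero_iff, Ideal.Quotient.eq_zero_iff_mem] at h2
    exact h2
  refine ⟨N.var.gen i0 / evN (fun j => ((N.ch e j : N.var.K) : N.var.Frac)) (N.L i0),
    div_ne_zero hg0 hu0, fun i => ?_⟩
  field_simp
  rw [hgen i]

theorem evN_eq_aeval {σ K : Type} [Field K] [Algebra ℂ K] (x : σ → K) (p : MvPolynomial σ ℕ) :
    evN x p = aeval x (map Complex.ofRealHom (map (Nat.castRingHom ℝ) p)) := by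
  rw [aeval_def, eval₂_map, eval₂_map, evN]
  congr 1
  exact Subsingleton.elim _ _

theorem evN_eq_eval {σ : Type} (x : σ → ℝ) (p : MvPolynomial σ ℕ) :
    evN x p = eval x (map (Nat.castRingHom ℝ) p) := by
  rw [← eval₂_eq_eval_map, evN]

/-- product of real values -/
theorem rval_prod [Fintype ι] (hSR : SrealStmt) {V : PVar ι} {x : ι → ℝ} (hx : x ∈ V.RP)
    {κ : Type} (s : Finset κ) (f : κ → V.K) (a : κ → ℝ) (h : ∀ j, V.RVal x (f j) (a j)) :
    V.RVal x (∏ j ∈ s, f j) (∏ j ∈ s, a j) := by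
  classical
  obtain ⟨-, -, h3, -, h5, -⟩ := hSR ι V x hx
  induction s using Finset.induction_on with
  | empty =>
    have := h3 1
    simpa using this
  | insert j s hj ih =>
    rw [Finset.prod_insert hj, Finset.prod_insert hj]
    exact h5 _ _ _ _ (h j) ih

section
variable [Fintype ι] (N : NCell ι d) (e : N.var.K ≃ₐ[ℂ] Fd d)

theorem dW_eq (hch : ∀ j, N.ch e j ≠ 0) : dW (N.ch e) = (∏ j, N.ch e j) • dL (N.ch e) := by
  unfold dL
  rw [smul_smul, mul_inv_cancel₀ (Finset.prod_ne_zero_iff.2 fun j _ => hch j), one_smul]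

/-- the data of volume forms at points of the cell -/
theorem vol_rep (hS : SpecStmt) (hCf : CfldStmt) (hSR : SrealStmt) (hJ : JacfStmt)
    (hCfr : CfrmStmt) (hFd : FderStmt) (hG : N.Good) (he : N.IsE e)
    (hpos : pos N.var N.P = {z | z ∈ N.Z ∨ -z ∈ N.Z})
    (z : ι → ℝ) (hz : z ∈ pos N.var N.P) (ω : Form N.var.K d) (hω : IsVol N.var d z ω) :
    ∃ (f : N.var.K) (a : ℝ), N.var.RVal z f a ∧ a ≠ 0 ∧ ω = f • dL (N.ch e) := by
  rw [hpos] at hz
  obtain ⟨τ, x, hτ, hx, hzi⟩ := mem_pos_rep N hz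
  obtain ⟨hRP, -, hval⟩ := hCfr ι d N e hG he z τ x hτ hx hzi
  obtain ⟨u, hu, hgen⟩ := gen_repr hS hCf N hG e he
  have hcoord := (hCf ι d N hG).2.1 e he
  obtain ⟨D, hD⟩ := hFd N.var.K d (N.ch e) hcoord
  obtain ⟨-, -, -, hJ4⟩ := hJ ι d N.var (N.ch e) D (fun i => map (Nat.castRingHom ℝ) (N.L i)) u x
    z τ hu hτ hRP hcoord hD
    (fun i => by rw [hgen i, evN_eq_aeval])
    (fun i => by rw [hzi i, evN_eq_eval]) hval
  obtain ⟨g, f, a, hg, hf, ha, rfl⟩ := hω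
  obtain ⟨J, b, hb, hb0, hJg⟩ := hJ4 g hg
  obtain ⟨-, -, -, -, h5, -⟩ := hSR ι N.var z hRP
  have hprod := rval_prod hSR hRP Finset.univ (N.ch e) x hval
  have hch0 : ∀ j, N.ch e j ≠ 0 := by
    intro j h
    have h1 := hcoord.ind
    exact (h1.ne_zero j) h
  refine ⟨f * (J * ∏ j, N.ch e j), a * (b * ∏ j, x j), h5 _ _ _ _ hf (h5 _ _ _ _ hb hprod),
    mul_ne_zero ha (mul_ne_zero hb0 (Finset.prod_ne_zero_iff.2 fun j _ => (hx j).ne')), ?_⟩
  rw [hJg, dW_eq N e hch0, smul_smul, smul_smul, mul_assoc]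

theorem vol_dL (hCf : CfldStmt) (hSR : SrealStmt)
    (hCfr : CfrmStmt) (hG : N.Good) (he : N.IsE e)
    (hpos : pos N.var N.P = {z | z ∈ N.Z ∨ -z ∈ N.Z})
    (z : ι → ℝ) (hz : z ∈ pos N.var N.P) : IsVol N.var d z (dL (N.ch e)) := by
  rw [hpos] at hz
  obtain ⟨τ, x, hτ, hx, hzi⟩ := mem_pos_rep N hz
  obtain ⟨hRP, hfr, hval⟩ := hCfr ι d N e hG he z τ x hτ hx hzi
  obtain ⟨-, -, -, -, h5, h6, -⟩ := hSR ι N.var z hRP
  have hprod := rval_prod hSR hRP Finset.univ (N.ch e) x hval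
  have hx0 : ∏ j, x j ≠ 0 := Finset.prod_ne_zero_iff.2 fun j _ => (hx j).ne'
  exact ⟨N.ch e, (∏ j, N.ch e j)⁻¹, (∏ j, x j)⁻¹, hfr, h6 _ _ hprod hx0, inv_ne_zero hx0, rfl⟩

end

theorem ostd (hS : SpecStmt) (hCf : CfldStmt) (hSR : SrealStmt) (hJ : JacfStmt)
    (hCfr : CfrmStmt) (hFd : FderStmt) (hFo : FoneStmt) : OstdStmt := by
  classical
  intro ι _ d N e hG he hpos ε hε
  have hcoord := (hCf ι d N hG).2.1 e he
  obtain ⟨D, hD⟩ := hFd N.var.K d (N.ch e) hcoord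
  have hch0 : ∀ j, N.ch e j ≠ 0 := fun j h => (hcoord.ind.ne_zero j) h
  have hdW := (hFo N.var.K d (N.ch e) D hD).1
  have hdL : dL (N.ch e) ≠ 0 := by
    intro h
    apply hdW
    rw [dW_eq N e hch0, h, smul_zero]
  have hRPpos : ∀ z ∈ pos N.var N.P, z ∈ N.var.RP := fun z hz => hz.1
  -- uniqueness
  have huniq : ∀ z ∈ N.var.RP, ∀ (f f' : N.var.K) (a a' : ℝ), N.var.RVal z f a →
      N.var.RVal z f' a' → f • dL (N.ch e) = f' • dL (N.ch e) → a = a' := by
    intro z hz f f' a a' h h' hff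
    have h1 : f = f' := by
      by_contra hne
      have h2 : f * dL (N.ch e) D = f' * dL (N.ch e) D :=
        congrArg (fun η : Form N.var.K d => η D) hff
      have h3 : dL (N.ch e) D ≠ 0 := by
        intro h3
        apply hdL
        rw [(hFo N.var.K d (N.ch e) D hD).2.1 (dL (N.ch e)), h3, zero_smul]
      exact hne (mul_right_cancel₀ h3 h2)
    subst h1
    exact (hSR ι N.var z hz).2.1 f a a' h h'
  let σ : (ι → ℝ) → Form N.var.K d → ℤ := fun z ω =>
    if h : ∃ p : N.var.K × ℝ, N.var.RVal z p.1 p.2 ∧ ω = p.1 • dL (N.ch e) then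
      ε * (SignType.sign h.choose.2 : ℤ) else 0
  have hσ : ∀ z ∈ N.var.RP, ∀ (f : N.var.K) (a : ℝ), N.var.RVal z f a →
      σ z (f • dL (N.ch e)) = ε * (SignType.sign a : ℤ) := by
    intro z hz f a hfa
    have h : ∃ p : N.var.K × ℝ, N.var.RVal z p.1 p.2 ∧ f • dL (N.ch e) = p.1 • dL (N.ch e) :=
      ⟨(f, a), hfa, rfl⟩
    have h2 := h.choose_spec
    have h3 : h.choose.2 = a := (huniq z hz _ _ _ _ hfa h2.1 h2.2).symm
    change (if h : ∃ p : N.var.K × ℝ, N.var.RVal z p.1 p.2 ∧ f • dL (N.ch e) =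
      p.1 • dL (N.ch e) then ε * (SignType.sign h.choose.2 : ℤ) else 0) = _
    rw [dif_pos h, h3]
  have hvol := fun z hz ω hω => vol_rep N e hS hCf hSR hJ hCfr hFd hG he hpos z hz ω hω
  refine ⟨σ, ⟨?_, ?_, ?_, ?_⟩, ?_⟩
  · intro x hx ω hω
    obtain ⟨f, a, hfa, ha, rfl⟩ := hvol x hx ω hω
    rw [hσ x (hRPpos x hx) f a hfa]
    rcases lt_or_gt_of_ne ha with h | h
    · rw [sign_neg h]
      rcases hε with rfl | rfl <;> simp
    · rw [sign_pos h]
      rcases hε with rfl | rfl <;> simp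
  · intro x hx ω hω f a hfa ha
    obtain ⟨f1, a1, hfa1, ha1, rfl⟩ := hvol x hx ω hω
    have h5 := (hSR ι N.var x (hRPpos x hx)).2.2.2.2.1 _ _ _ _ hfa hfa1
    rw [smul_smul, hσ x (hRPpos x hx) _ _ h5, hσ x (hRPpos x hx) _ _ hfa1, sign_mul]
    push_cast
    ring
  · intro x hx ω hω
    obtain ⟨f, a, hfa, ha, rfl⟩ := hvol x hx ω hω
    have h8 := (hSR ι N.var x (hRPpos x hx)).2.2.2.2.2.2.2 f a hfa |a| (abs_pos.2 ha)
    rw [hσ x (hRPpos x hx) _ _ hfa, eventually_nhdsWithin_iff]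
    filter_upwards [h8] with y hy hyp
    obtain ⟨b, hb, hab⟩ := hy
    rw [hσ y (hRPpos y hyp) _ _ hb]
    congr 2
    rcases lt_or_gt_of_ne ha with h | h
    · rw [abs_of_neg h] at hab
      have := (abs_lt.1 hab).2
      rw [sign_neg h, sign_neg (by linarith)]
    · rw [abs_of_pos h] at hab
      have := (abs_lt.1 hab).1
      rw [sign_pos h, sign_pos (by linarith)]
  · intro x hx ω hω c hc
    obtain ⟨f, a, hfa, ha, rfl⟩ := hvol x hx ω hω
    rw [hσ x (hRPpos x hx) _ _ hfa, hσ (c • x) (rp_smul _ (hRPpos x hx) hc) f a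
      ((hSR ι N.var x (hRPpos x hx)).2.2.2.2.2.2.1 f a hfa c hc)]
  · intro z hz
    have h3 := (hSR ι N.var z (hRPpos z hz)).2.2.1 1
    have h4 := hσ z (hRPpos z hz) _ _ h3
    rw [show algebraMap ℂ N.var.K ((1 : ℝ) : ℂ) = 1 by simp, one_smul] at h4
    rw [h4, sign_one]
    simp

theorem Z_preconnected (N : NCell ι d) : IsPreconnected N.Z := by
  have e : N.Z = (fun p : ℝ × (Fin d → ℝ) => fun i => p.1 * evN p.2 (N.L i)) ''
      (Set.Ioi 0 ×ˢ Set.pi Set.univ fun _ => Set.Ioi 0) := by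
    ext z
    constructor
    · rintro ⟨τ, x, hτ, hx, h⟩
      exact ⟨(τ, x), ⟨hτ, fun j _ => hx j⟩, funext fun i => (h i).symm⟩
    · rintro ⟨⟨τ, x⟩, ⟨hτ, hx⟩, rfl⟩
      exact ⟨τ, x, hτ, fun j => hx j (Set.mem_univ j), fun i => rfl⟩
  rw [e]
  apply IsPreconnected.image
  · exact ((convex_Ioi 0).prod (convex_pi fun _ _ => convex_Ioi 0)).isPreconnected
  · apply Continuous.continuousOn
    refine continuous_pi fun i => ?_
    apply Continuous.mul continuous_fst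
    have : (fun p : ℝ × (Fin d → ℝ) => evN p.2 (N.L i)) =
        fun p => eval p.2 (map (Nat.castRingHom ℝ) (N.L i)) := by
      funext p; exact evN_eq_eval _ _
    rw [this]
    exact (MvPolynomial.continuous_eval _).comp continuous_snd

theorem osgn (hCf : CfldStmt) (hSR : SrealStmt) (hCfr : CfrmStmt) : OsgnStmt := by
  intro ι _ d N e hG he hpos σ hσ
  have hv := fun z hz => vol_dL N e hCf hSR hCfr hG he hpos z hz
  refine ⟨hv, ?_⟩
  have hZpos : N.Z ⊆ pos N.var N.P := by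
    rw [hpos]; exact fun z hz => Or.inl hz
  have hcont : ContinuousOn (fun z => σ z (dL (N.ch e))) N.Z := by
    intro z hz
    have h1 := hσ.o_loc z (hZpos hz) _ (hv z (hZpos hz))
    have h2 : ∀ᶠ y in 𝓝[N.Z] z, σ y (dL (N.ch e)) = σ z (dL (N.ch e)) :=
      h1.filter_mono (nhdsWithin_mono _ hZpos)
    exact tendsto_nhds_of_eventually_eq h2
  obtain ⟨z0, hz0⟩ := Z_nonempty N
  refine ⟨σ z0 (dL (N.ch e)), hσ.o_val z0 (hZpos hz0) _ (hv z0 (hZpos hz0)), ?_⟩
  intro z hz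
  have hz' := hz
  rw [hpos] at hz'
  rcases hz' with h | h
  · exact (Z_preconnected N).constant hcont h hz0
  · have h1 := hσ.o_proj z hz _ (hv z hz) (-1) (by norm_num)
    rw [neg_one_smul] at h1
    rw [← h1]
    exact (Z_preconnected N).constant hcont h hz0
where
  tendsto_nhds_of_eventually_eq {X Y : Type} [TopologicalSpace Y] {l : Filter X}
      {f : X → Y} {b : Y} (h : ∀ᶠ x in l, f x = b) : Filter.Tendsto f l (𝓝 b) :=
    (Filter.tendsto_congr' h).2 tendsto_const_nhds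

end PosGeom.H14
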