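import Pool.Agent.Helper14_ABCT.Rint

set_option autoImplicit false

open MvPolynomial Topology

namespace PosGeom.H14

theorem evN_hom {σ R S : Type} [CommSemiring R] [CommSemiring S] (f : R →+* S) (x : σ → R)
    (p : MvPolynomial σ ℕ) : f (evN x p) = evN (fun j => f (x j)) p := by
  unfold evN
  rw [MvPolynomial.hom_eval₂]
  congr 1
  exact Subsingleton.elim _ _

variable {ι : Type} {d : ℕ} (N : NCell ι d)

theorem vIdeal_P [Fintype ι] (hC : CposStmt) (hG : N.Good) : vIdeal N.P = N.var.I := by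
  obtain ⟨h1, h2, h3⟩ := hC ι d N hG
  apply le_antisymm
  · intro F hF
    have hF' : ∀ x ∈ N.P, aeval (fun i => ((x i : ℝ) : ℂ)) F = 0 := hF
    change F ∈ RingHom.ker (N.hom : MvPolynomial ι ℂ →+* Polynomial (MvPolynomial (Fin d) ℂ))
    rw [RingHom.mem_ker]
    change N.hom F = 0
    ext1 n
    rw [N.hom_coeff, Polynomial.coeff_zero]
    -- vanishing at positive points
    have key : ∀ r : Fin d → ℝ, (∀ j, 0 < r j) → ∀ n,
        aeval (fun i => ((evN r (N.L i) : ℝ) : ℂ)) (homogeneousComponent n F) = 0 := by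
      intro r hr n
      let p : Polynomial ℂ := ∑ i ∈ Finset.range (F.totalDegree + 1),
        Polynomial.C (aeval (fun i => ((evN r (N.L i) : ℝ) : ℂ)) (homogeneousComponent i F)) *
          Polynomial.X ^ i
      have hroot : ∀ τ : ℝ, 0 < τ → p.IsRoot (τ : ℂ) := by
        intro τ hτ
        rw [Polynomial.IsRoot.def, Polynomial.eval_finsetSum]
        have hz : (fun i => τ * evN r (N.L i)) ∈ N.Z := ⟨τ, r, hτ, hr, fun i => rfl⟩
        have hz0 := ((h1 _).1 hz).1.1
        have h4 := hF' _ ⟨hz0, Or.inl (subset_closure hz)⟩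
        have h5 := aeval_scale F (fun i => ((evN r (N.L i) : ℝ) : ℂ)) (τ : ℂ)
          (F.totalDegree + 1) (Nat.lt_succ_self _)
        have e : (fun i => ((τ * evN r (N.L i) : ℝ) : ℂ)) =
            fun i => (τ : ℂ) * ((evN r (N.L i) : ℝ) : ℂ) := by
          funext i; push_cast; rfl
        rw [e, h5] at h4
        rw [← h4]
        refine Finset.sum_congr rfl fun i _ => ?_
        rw [Polynomial.eval_mul, Polynomial.eval_C, Polynomial.eval_pow, Polynomial.eval_X]
        ring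
      have hp : p = 0 := by
        apply Polynomial.eq_zero_of_infinite_isRoot
        have hinf : Set.Infinite ((fun τ : ℝ => (τ : ℂ)) '' Set.Ioi 0) :=
          (Set.Ioi_infinite 0).image (fun a _ b _ h => Complex.ofReal_injective h)
        apply hinf.mono
        rintro _ ⟨τ, hτ, rfl⟩
        exact hroot τ hτ
      by_cases hn : n ∈ Finset.range (F.totalDegree + 1)
      · have h6 : p.coeff n = 0 := by rw [hp, Polynomial.coeff_zero]
        rw [Polynomial.finsetSum_coeff, Finset.sum_eq_single n] at h6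
        · rwa [Polynomial.coeff_C_mul, Polynomial.coeff_X_pow, if_pos rfl, mul_one] at h6
        · intro i _ him
          rw [Polynomial.coeff_C_mul, Polynomial.coeff_X_pow, if_neg (Ne.symm him), mul_zero]
        · intro h; exact absurd hn h
      · rw [Finset.mem_range, not_lt] at hn
        rw [homogeneousComponent_eq_zero _ _ (by omega), map_zero]
    apply MvPolynomial.funext_set (fun _ => (fun τ : ℝ => (τ : ℂ)) '' Set.Ioi 0)
      (fun _ => (Set.Ioi_infinite 0).image (fun a _ b _ h => Complex.ofReal_injective h))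
    intro x hx
    rw [map_zero]
    have hx' : ∀ j, ∃ r : ℝ, 0 < r ∧ (r : ℂ) = x j := by
      intro j
      obtain ⟨r, hr, h⟩ := hx j (Set.mem_univ j)
      exact ⟨r, hr, h⟩
    choose r hr hrx using hx'
    have h7 := key r hr n
    rw [← h7]
    have h8 : ∀ G : MvPolynomial ι ℂ, eval x (aeval (fun i => evN (fun j =>
        (X j : MvPolynomial (Fin d) ℂ)) (N.L i)) G) =
        aeval (fun i => ((evN r (N.L i) : ℝ) : ℂ)) G := by
      intro G
      rw [← aeval_eq_eval, ← AlgHom.comp_apply, comp_aeval]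
      congr 2
      funext i
      have h9 := evN_hom ((aeval x : MvPolynomial (Fin d) ℂ →ₐ[ℂ] ℂ) :
        MvPolynomial (Fin d) ℂ →+* ℂ) (fun j => (X j : MvPolynomial (Fin d) ℂ)) (N.L i)
      have h10 := evN_hom Complex.ofRealHom r (N.L i)
      have h11 : (fun j => ((aeval x : MvPolynomial (Fin d) ℂ →ₐ[ℂ] ℂ) :
        MvPolynomial (Fin d) ℂ →+* ℂ) (X j)) = fun j => Complex.ofRealHom (r j) := by
        funext j
        simp [hrx j]
      rw [h11] at h9
      change (aeval x) (evN (fun j => (X j : MvPolynomial (Fin d) ℂ)) (N.L i)) =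
        Complex.ofRealHom (evN r (N.L i))
      rw [h10]
      exact h9
    exact h8 _
  · intro F hF x hx
    exact ((cell_facts N hC hG).2.2.1 hx).2 F hF

theorem vIdeal_anti {B B' : Set (ι → ℝ)} (h : B ⊆ B') : vIdeal B' ≤ vIdeal B :=
  fun _ hF x hx => hF x (h hx)

theorem rbd (hR : RintStmt) (hC : CposStmt) (hCf : CfldStmt) (hD : DimStmt) : RbdStmt := by
  classical
  intro ι _ 𝒞 Fac hF d N hN Q
  obtain ⟨-, hR2, hR3⟩ := hR ι 𝒞 Fac hF
  rw [hR3 d N hN]
  -- the family of supports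
  let g : Set ι → Ideal (MvPolynomial ι ℂ) := fun M' => vIdeal {z | z ∈ N.P ∧ ∀ i, i ∉ M' → z i = 0}
  have hg : ∀ N', Fac d N N' → N'.var.I = g N'.M := by
    intro N' hFac
    rw [← vIdeal_P N' hC (hF.good _ N' (hF.closed d N N' hN hFac)), (hR2 d N N' hN hFac).2]
  have hdim : ∀ N', Fac d N N' → Algebra.trdeg ℂ N'.var.K = d := fun N' hFac =>
    (hCf ι d N' (hF.good _ N' (hF.closed d N N' hN hFac))).2.2.1
  let S : Finset (Set ι) := Finset.univ.filter fun M' => ∃ N', Fac d N N' ∧ M' = N'.M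
  have hinf : vIdeal (⋃ N', ⋃ (_ : Fac d N N'), N'.P) = S.inf g := by
    apply le_antisymm
    · apply Finset.le_inf
      intro M' hM'
      obtain ⟨N', hFac, rfl⟩ := (Finset.mem_filter.1 hM').2
      have : {z | z ∈ N.P ∧ ∀ i, i ∉ N'.M → z i = 0} = N'.P := (hR2 d N N' hN hFac).2.symm
      change _ ≤ vIdeal {z | z ∈ N.P ∧ ∀ i, i ∉ N'.M → z i = 0}
      rw [this]
      exact vIdeal_anti fun z hz => Set.mem_iUnion₂.2 ⟨N', hFac, hz⟩
    · intro F hFS x hx
      obtain ⟨N', hFac, hx⟩ := Set.mem_iUnion₂.1 hx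
      have h1 : F ∈ g N'.M := (Finset.inf_le (f := g)
        (Finset.mem_filter.2 ⟨Finset.mem_univ _, N', hFac, rfl⟩ : N'.M ∈ S)) hFS
      rw [(hR2 d N N' hN hFac).2] at hx
      exact h1 x hx
  rw [hinf]
  have hle : ∀ J : Ideal (MvPolynomial ι ℂ), J.IsPrime → S.inf g ≤ J →
      ∃ N', Fac d N N' ∧ N'.var.I ≤ J := by
    intro J hJ h
    obtain ⟨M', hM', h1⟩ := (Ideal.IsPrime.inf_le' hJ).1 h
    obtain ⟨N', hFac, rfl⟩ := (Finset.mem_filter.1 hM').2
    exact ⟨N', hFac, by rw [hg N' hFac]; exact h1⟩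
  have hge : ∀ N', Fac d N N' → S.inf g ≤ N'.var.I := by
    intro N' hFac
    rw [hg N' hFac]
    exact Finset.inf_le (Finset.mem_filter.2 ⟨Finset.mem_univ _, N', hFac, rfl⟩)
  constructor
  · rintro ⟨⟨hQ, hQ'⟩, hmin⟩
    obtain ⟨N', hFac, h1⟩ := hle Q hQ hQ'
    exact ⟨N', hFac, le_antisymm (hmin ⟨N'.var.prime, hge N' hFac⟩ h1) h1⟩
  · rintro ⟨N', hFac, rfl⟩
    refine ⟨⟨N'.var.prime, hge N' hFac⟩, ?_⟩
    rintro J ⟨hJ, hJ'⟩ hJ2
    obtain ⟨N₂, hFac₂, h1⟩ := hle J hJ hJ'
    have h2 : N₂.var.I = N'.var.I := hD ι N₂.var N'.var d (h1.trans hJ2) (hdim N₂ hFac₂)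
      (hdim N' hFac)
    rw [← h2]
    exact h1

end PosGeom.H14
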