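import Pool.Agent.Helper93_ABCT.StmtI
import Pool.Agent.Helper93_ABCT.Var

set_option autoImplicit false

open MvPolynomial Topology

namespace PosGeom.H14

variable {ι : Type}

theorem rp_smul (V : PVar ι) {x : ι → ℝ} (hx : x ∈ V.RP) {c : ℝ} (hc : c ≠ 0) : c • x ∈ V.RP := by
  refine ⟨smul_ne_zero hc hx.1, fun F hF => ?_⟩
  have h := aeval_scale F (fun i => ((x i : ℝ) : ℂ)) (c : ℂ) (F.totalDegree + 1)
    (Nat.lt_succ_self _)
  have e : (fun i => (((c • x) i : ℝ) : ℂ)) = fun i => (c : ℂ) * ((x i : ℝ) : ℂ) := by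
    funext i
    simp
  rw [e, h]
  refine Finset.sum_eq_zero fun m _ => ?_
  rw [hx.2 _ (V.homog F hF m), mul_zero]

theorem rp_neg (V : PVar ι) {x : ι → ℝ} (hx : x ∈ V.RP) : -x ∈ V.RP := by
  have := rp_smul V hx (c := -1) (by norm_num)
  rwa [neg_one_smul] at this

theorem rp_neg_iff (V : PVar ι) {x : ι → ℝ} : -x ∈ V.RP ↔ x ∈ V.RP :=
  ⟨fun h => by have := rp_neg V h; rwa [neg_neg] at this, rp_neg V⟩

variable {d : ℕ} (N : NCell ι d)

theorem Z_smul {z : ι → ℝ} (hz : z ∈ N.Z) {c : ℝ} (hc : 0 < c) : c • z ∈ N.Z := by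
  obtain ⟨τ, x, hτ, hx, h⟩ := hz
  refine ⟨c * τ, x, mul_pos hc hτ, hx, fun i => ?_⟩
  rw [Pi.smul_apply, h i, smul_eq_mul, mul_assoc]

theorem clZ_smul {z : ι → ℝ} (hz : z ∈ closure N.Z) {c : ℝ} (hc : 0 < c) :
    c • z ∈ closure N.Z :=
  map_mem_closure (continuous_const_smul c) hz fun _ hx => Z_smul N hx hc

theorem P_neg {z : ι → ℝ} (hz : z ∈ N.P) : -z ∈ N.P :=
  ⟨neg_ne_zero.2 hz.1, by rw [neg_neg]; exact hz.2.symm⟩

theorem P_neg_iff {z : ι → ℝ} : -z ∈ N.P ↔ z ∈ N.P :=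
  ⟨fun h => by have := P_neg N h; rwa [neg_neg] at this, P_neg N⟩

theorem P_cone {z : ι → ℝ} (hz : z ∈ N.P) {c : ℝ} (hc : c ≠ 0) : c • z ∈ N.P := by
  rcases lt_or_gt_of_ne hc with h | h
  · have h1 : 0 < -c := by linarith
    have e : c • z = -((-c) • z) := by rw [neg_smul, neg_neg]
    rw [e, P_neg_iff]
    exact ⟨smul_ne_zero h1.ne' hz.1, hz.2.imp (fun h => clZ_smul N h h1)
      (fun h => by rw [← smul_neg]; exact clZ_smul N h h1)⟩
  · exact ⟨smul_ne_zero hc hz.1, hz.2.imp (fun h' => clZ_smul N h' h)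
      (fun h' => by rw [← smul_neg]; exact clZ_smul N h' h)⟩

theorem Z_nonempty : N.Z.Nonempty :=
  ⟨fun i => 1 * evN (fun _ => 1) (N.L i), 1, fun _ => 1, one_pos, fun _ => one_pos, fun _ => rfl⟩

theorem not_eventually [Finite ι] {V : PVar ι} {P : Set (ι → ℝ)} {z : ι → ℝ}
    (h : z ∈ closure {x | x ∈ V.RP ∧ x ∉ P}) : ¬ ∀ᶠ y in 𝓝[V.RP] z, y ∈ P := by
  intro hev
  rw [eventually_nhdsWithin_iff] at hev
  obtain ⟨y, ⟨h1, h2⟩, h3⟩ := ((mem_closure_iff_frequently.1 h).and_eventually hev).exists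
  exact h2 (h3 h1)

theorem evN_pos {d : ℕ} {p : MvPolynomial (Fin d) ℕ} (hp : p ≠ 0) {x : Fin d → ℝ}
    (hx : ∀ j, 0 < x j) : 0 < evN x p := by
  classical
  rw [evN, eval₂_eq]
  apply Finset.sum_pos
  · intro μ hμ
    have h1 : coeff μ p ≠ 0 := mem_support_iff.1 hμ
    have h2 : (0 : ℝ) < (Nat.castRingHom ℝ) (coeff μ p) := by
      have : 0 < coeff μ p := Nat.pos_of_ne_zero h1
      simpa using this
    exact mul_pos h2 (Finset.prod_pos fun i _ => pow_pos (hx i) _)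
  · exact Finset.nonempty_iff_ne_empty.2 fun h => hp (support_eq_empty.1 h)

theorem clo_zero (N : NCell ι 0) {z : ι → ℝ} (hz : z ∈ closure N.Z) (h0 : z ≠ 0)
    (hpos : ∀ i, 0 ≤ z i) : z ∈ N.Z := by
  obtain ⟨i0, hi0⟩ := N.ne
  set x : Fin 0 → ℝ := Fin.elim0 with hx
  have hv : 0 < evN x (N.L i0) := evN_pos hi0 (fun j => j.elim0)
  have hclosed : IsClosed {z : ι → ℝ | ∀ i, z i * evN x (N.L i0) = z i0 * evN x (N.L i)} := by
    simp only [Set.setOf_forall]
    exact isClosed_iInter fun i => isClosed_eq (by fun_prop) (by fun_prop)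
  have hsub : N.Z ⊆ {z : ι → ℝ | ∀ i, z i * evN x (N.L i0) = z i0 * evN x (N.L i)} := by
    rintro z ⟨τ, x', hτ, -, h⟩ i
    have hxx : x' = x := Subsingleton.elim _ _
    rw [h i, h i0, hxx]
    ring
  have hz' := closure_minimal hsub hclosed hz
  have hz0 : z i0 ≠ 0 := by
    intro h
    apply h0
    funext i
    have := hz' i
    rw [h, zero_mul] at this
    exact (mul_eq_zero.1 this).resolve_right hv.ne'
  have hz1 : 0 < z i0 := lt_of_le_of_ne (hpos i0) (Ne.symm hz0)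
  refine ⟨z i0 / evN x (N.L i0), x, div_pos hz1 hv, fun j => j.elim0, fun i => ?_⟩
  have := hz' i
  field_simp
  linarith

theorem cell_facts [Fintype ι] (hC : CposStmt) (hG : N.Good) :
    {z | z ∈ N.Z ∨ -z ∈ N.Z} ⊆ pos N.var N.P ∧
    clo {z | z ∈ N.Z ∨ -z ∈ N.Z} = N.P ∧ N.P ⊆ N.var.RP ∧ N.P.Nonempty := by
  obtain ⟨h1, h2, h3⟩ := hC ι d N hG
  have hopen : ∀ z ∈ N.Z, ∀ᶠ y in 𝓝 z, ∀ i ∈ N.M, 0 < y i := by
    intro z hz
    have hz' := ((h1 z).1 hz).2
    have : ∀ᶠ y in 𝓝 z, ∀ i, i ∈ N.M → 0 < y i := by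
      rw [Filter.eventually_all]
      intro i
      by_cases hi : i ∈ N.M
      · have hc : Continuous fun y : ι → ℝ => y i := continuous_apply i
        filter_upwards [(isOpen_lt continuous_const hc).mem_nhds (hz' i hi)] with y hy _
        exact hy
      · exact Filter.Eventually.of_forall fun y h => absurd h hi
    exact this
  have hZRP : N.Z ⊆ N.var.RP := fun z hz => ((h1 z).1 hz).1
  refine ⟨?_, ?_, ?_, ?_⟩
  · rintro z (hz | hz)
    · refine ⟨hZRP hz, ?_⟩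
      rw [eventually_nhdsWithin_iff]
      filter_upwards [hopen z hz] with y hy hy'
      exact ⟨hy'.1, Or.inl (subset_closure ((h1 y).2 ⟨hy', hy⟩))⟩
    · refine ⟨(rp_neg_iff _).1 (hZRP hz), ?_⟩
      rw [eventually_nhdsWithin_iff]
      filter_upwards [(continuous_neg.tendsto z).eventually (hopen _ hz)] with y hy hy'
      exact ⟨hy'.1, Or.inr (subset_closure ((h1 _).2 ⟨rp_neg _ hy', hy⟩))⟩
  · ext z
    constructor
    · rintro ⟨h0, hz⟩
      refine ⟨h0, ?_⟩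
      have e : {z : ι → ℝ | z ∈ N.Z ∨ -z ∈ N.Z} = N.Z ∪ (Neg.neg ⁻¹' N.Z) := rfl
      rw [e, closure_union] at hz
      rcases hz with hz | hz
      · exact Or.inl hz
      · exact Or.inr (map_mem_closure continuous_neg hz fun x hx => hx)
    · rintro ⟨h0, hz⟩
      refine ⟨h0, ?_⟩
      rcases hz with hz | hz
      · exact closure_mono (fun x hx => Or.inl hx) hz
      · have := map_mem_closure (t := {z : ι → ℝ | z ∈ N.Z ∨ -z ∈ N.Z}) continuous_neg hz
          (fun x hx => Or.inr (by rw [neg_neg]; exact hx))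
        rwa [neg_neg] at this
  · rintro z ⟨h0, hz | hz⟩
    · exact (h3 z hz h0).1
    · exact (rp_neg_iff _).1 (h3 _ hz (neg_ne_zero.2 h0)).1
  · obtain ⟨z, hz⟩ := Z_nonempty N
    exact ⟨z, (hZRP hz).1, Or.inl (subset_closure hz)⟩

theorem pos_eq [Fintype ι] (hC : CposStmt) (hG : N.Good)
    (key : ∀ z, z ∈ closure N.Z → z ≠ 0 → z ∉ N.Z →
      z ∈ closure {x | x ∈ N.var.RP ∧ x ∉ N.P}) :
    pos N.var N.P = {z | z ∈ N.Z ∨ -z ∈ N.Z} := by
  apply Set.Subset.antisymm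
  · rintro z ⟨hz, hev⟩
    have hzP : z ∈ N.P := by
      rw [eventually_nhdsWithin_iff] at hev
      exact hev.self_of_nhds hz
    by_contra hcon
    have hc1 : z ∉ N.Z := fun h => hcon (Or.inl h)
    have hc2 : -z ∉ N.Z := fun h => hcon (Or.inr h)
    rcases hzP.2 with h | h
    · exact not_eventually (key z h hz.1 hc1) hev
    · have h1 := key (-z) h (neg_ne_zero.2 hz.1) hc2
      have h2 := map_mem_closure (t := {x | x ∈ N.var.RP ∧ x ∉ N.P}) continuous_neg h1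
        (fun x hx => ⟨rp_neg _ hx.1, fun h => hx.2 ((P_neg_iff N).1 h)⟩)
      rw [neg_neg] at h2
      exact not_eventually h2 hev
  · exact (cell_facts N hC hG).1

theorem rint (hC : CposStmt) (hL : NlimStmt) : RintStmt := by
  intro ι _ 𝒞 Fac hF
  have hpos : ∀ d N, 𝒞 d N → pos N.var N.P = {z | z ∈ N.Z ∨ -z ∈ N.Z} := by
    intro d N hN
    apply pos_eq N hC (hF.good d N hN)
    intro z hz h0 hzZ
    cases d with
    | zero => exact absurd (clo_zero N hz h0 ((hC ι 0 N (hF.good 0 N hN)).2.2 z hz h0).2) hzZ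
    | succ d =>
      obtain ⟨N', hFac, hz'⟩ := hF.B d N hN z hz h0 hzZ
      obtain ⟨A, L'', m, h, κ, a, hfac⟩ := hF.fac d N N' hN hFac
      have h1 := (hL ι d N N' A L'' m h κ a (hF.good _ N hN)
        (hF.good _ N' (hF.closed d N N' hN hFac)) hfac).2
      exact closure_minimal (fun x hx => h1 x hx) isClosed_closure hz'
  have hfacts := fun d (N : NCell ι d) (hN : 𝒞 d N) => cell_facts N hC (hF.good d N hN)
  have hsubP : ∀ d N N', 𝒞 (d + 1) N → Fac d N N' → N'.P ⊆ N.P := by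
    intro d N N' hN hFac
    obtain ⟨A, L'', m, h, κ, a, hfac⟩ := hF.fac d N N' hN hFac
    have h1 := (hL ι d N N' A L'' m h κ a (hF.good _ N hN)
        (hF.good _ N' (hF.closed d N N' hN hFac)) hfac).1
    have h2 : closure N'.Z ⊆ closure N.Z := closure_minimal h1 isClosed_closure
    exact fun z hz => ⟨hz.1, hz.2.imp (fun h => h2 h) (fun h => h2 h)⟩
  refine ⟨?_, ?_, ?_⟩
  · intro d N hN
    obtain ⟨_, h2, h3, h4⟩ := hfacts d N hN
    exact ⟨hpos d N hN, by rw [hpos d N hN]; exact h2, h3, h4, fun x hx c hc => P_cone N hx hc⟩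
  · intro d N N' hN hFac
    have hN' := hF.closed d N N' hN hFac
    have a1 : N'.P ⊆ N'.var.RP ∩ N.P := fun z hz =>
      ⟨(hfacts d N' hN').2.2.1 hz, hsubP d N N' hN hFac hz⟩
    have a2 : N'.var.RP ∩ N.P ⊆ {z | z ∈ N.P ∧ ∀ i, i ∉ N'.M → z i = 0} := fun z hz =>
      ⟨hz.2, fun i hi => (hC ι d N' (hF.good _ N' hN')).2.1 z hz.1 i hi⟩
    have a3 : {z | z ∈ N.P ∧ ∀ i, i ∉ N'.M → z i = 0} ⊆ N'.P := by
      rintro z ⟨⟨h0, hz⟩, hs⟩
      refine ⟨h0, hz.imp (fun h => ?_) (fun h => ?_)⟩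
      · exact hF.D d N N' hN hFac z h h0 fun i hi => by
          by_contra hc
          exact hi (hs i hc)
      · refine hF.D d N N' hN hFac (-z) h (neg_ne_zero.2 h0) fun i hi => ?_
        by_contra hc
        apply hi
        rw [Pi.neg_apply, hs i hc, neg_zero]
    exact ⟨Set.Subset.antisymm (a2.trans a3) a1, Set.Subset.antisymm (a1.trans a2) a3⟩
  · intro d N hN
    rw [hpos (d + 1) N hN]
    apply Set.Subset.antisymm
    · rintro z ⟨⟨h0, hz⟩, hn⟩
      have hn1 : z ∉ N.Z := fun h => hn (Or.inl h)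
      have hn2 : -z ∉ N.Z := fun h => hn (Or.inr h)
      rcases hz with hz | hz
      · obtain ⟨N', hFac, hz'⟩ := hF.B d N hN z hz h0 hn1
        exact Set.mem_iUnion₂.2 ⟨N', hFac, h0, Or.inl hz'⟩
      · obtain ⟨N', hFac, hz'⟩ := hF.B d N hN (-z) hz (neg_ne_zero.2 h0) hn2
        exact Set.mem_iUnion₂.2 ⟨N', hFac, h0, Or.inr hz'⟩
    · intro z hz
      obtain ⟨N', hFac, hz⟩ := Set.mem_iUnion₂.1 hz
      refine ⟨hsubP d N N' hN hFac hz, ?_⟩
      obtain ⟨A, L'', m, h, κ, a, hfac⟩ := hF.fac d N N' hN hFac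
      obtain ⟨i, hiM, hi⟩ := Set.exists_of_ssubset hfac.sub
      have hN' := hF.closed d N N' hN hFac
      have hzi : z i = 0 := (hC ι d N' (hF.good _ N' hN')).2.1 z ((hfacts d N' hN').2.2.1 hz) i hi
      rintro (h | h)
      · have := ((hC ι (d + 1) N (hF.good _ N hN)).1 z).1 h
        have := this.2 i hiM
        linarith
      · have := ((hC ι (d + 1) N (hF.good _ N hN)).1 (-z)).1 h
        have := this.2 i hiM
        rw [Pi.neg_apply] at this
        linarith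

end PosGeom.H14
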