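import Pool.Agent.Helper93_ABCT.StmtK

set_option autoImplicit false

open MvPolynomial Topology

namespace PosGeom.H14

section
variable {K K' : Type} [Field K] [Algebra ℂ K] [Field K'] [Algebra ℂ K'] (t : K' ≃ₐ[ℂ] K)

/-- transport of derivations -/
noncomputable def conjD (D : Derivation ℂ K' K') : Derivation ℂ K K :=
  Derivation.mk' ((t.toLinearMap ∘ₗ (D : K' →ₗ[ℂ] K')) ∘ₗ t.symm.toLinearMap) (by
    intro a b
    simp only [LinearMap.comp_apply, AlgEquiv.toLinearMap_apply, Derivation.coeFn_coe, map_mul,
      Derivation.leibniz, map_add, smul_eq_mul, AlgEquiv.apply_symm_apply])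

theorem conjD_apply (D : Derivation ℂ K' K') (a : K) : conjD t D a = t (D (t.symm a)) := rfl

theorem dW_apply {d : ℕ} (g : Fin d → K) (D : Fin d → Derivation ℂ K K) :
    dW g D = (Matrix.of fun i j => D i (g j)).det := rfl

theorem dW_conj {d : ℕ} (g : Fin d → K) (D : Fin d → Derivation ℂ K' K') :
    dW g (fun i => conjD t (D i)) = t (dW (fun j => t.symm (g j)) D) := by
  rw [dW_apply, dW_apply]
  have := RingHom.map_det (t : K' →+* K) (Matrix.of fun i j => D i (t.symm (g j)))
  refine Eq.trans ?_ this.symm
  congr 1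

theorem formSum_apply {α : Type} {d : ℕ} (s : Finset α) (ω : α → Form K d)
    (D : Fin d → Derivation ℂ K K) : (∑ k ∈ s, ω k) D = ∑ k ∈ s, ω k D := by
  classical
  induction s using Finset.induction_on with
  | empty => simp
  | insert a s ha ih => rw [Finset.sum_insert ha, Finset.sum_insert ha, AlternatingMap.add_apply, ih]

end

theorem ufor : UforStmt := by
  intro K K' _ _ _ _ t O O' hO d y f hreg
  obtain ⟨m, F, g, hF, hg, h⟩ := hreg
  refine ⟨m, fun k => t.symm (F k), fun k i => t.symm (g k i), fun k => ?_, fun k i => ?_, ?_⟩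
  · rw [← hO, AlgEquiv.apply_symm_apply]; exact hF k
  · rw [← hO, AlgEquiv.apply_symm_apply]; exact hg k i
  · ext D
    apply t.injective
    have h1 := congrArg (fun η : Form K d => η (fun i => conjD t (D i))) h
    simp only [formSum_apply, AlternatingMap.smul_apply, smul_eq_mul, dW_conj] at h1
    simp only [formSum_apply, AlternatingMap.smul_apply, smul_eq_mul, map_sum, map_mul,
      AlgEquiv.apply_symm_apply]
    rw [← h1]
    congr 1
    unfold dL
    rw [AlternatingMap.smul_apply, AlternatingMap.smul_apply, smul_eq_mul, smul_eq_mul, map_mul,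
      map_inv₀, map_prod, dW_conj]
    simp only [AlgEquiv.symm_apply_apply]

end PosGeom.H14
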